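import Pool.Agent.Lib.MP_b5021c_nt.IfaceE6
import Pool.Agent.Lib.MP_b5021c_nt.K.H70.Unr

/-!
# MP_b5021c_nt, rows E6_ZFA, E6_ZFB: z-free closings of the window
-/

namespace Pool.Agent.B5.H78

open scoped LaurentPolynomial
open Polynomial

/-- uniqueness of the normal form, one inequality (copy of H75/T2c.lean) -/
theorem T_eq_le {p q : ℤ[X]} {a b : ℤ} (hp : p.coeff 0 ≠ 0) (hab : a ≤ b)
    (h : (LaurentPolynomial.T a * toLaurent p : RO ℤ) = LaurentPolynomial.T b * toLaurent q) :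
    a = b ∧ p = q := by
  obtain ⟨n, rfl⟩ : ∃ n : ℕ, b = a + n := ⟨(b - a).toNat, by omega⟩
  rw [LaurentPolynomial.T_add, mul_assoc] at h
  have h2 : (toLaurent p : RO ℤ) = LaurentPolynomial.T n * toLaurent q :=
    (LaurentPolynomial.isUnit_T a).mul_left_cancel h
  rw [← toLaurent_X_pow, ← map_mul] at h2
  have h3 : p = X ^ n * q := toLaurent_injective h2
  rcases Nat.eq_zero_or_pos n with hn | hn
  · subst hn
    exact ⟨by simp, by simpa using h3⟩
  · exfalso
    apply hp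
    rw [h3, coeff_X_pow_mul', if_neg (by omega)]

theorem T_eq {p q : ℤ[X]} {a b : ℤ} (hp : p.coeff 0 ≠ 0) (hq : q.coeff 0 ≠ 0)
    (h : (LaurentPolynomial.T a * toLaurent p : RO ℤ) = LaurentPolynomial.T b * toLaurent q) :
    a = b ∧ p = q := by
  rcases le_total a b with hab | hab
  · exact T_eq_le hp hab h
  · obtain ⟨h1, h2⟩ := T_eq_le hq hab h.symm
    exact ⟨h1.symm, h2.symm⟩

/-- an integer polynomial with constant coefficient `±1` and without complex zeros of modulus at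
most one is constant. -/
theorem const_of_roots (f : ℤ[X]) (h0 : f.coeff 0 = 1 ∨ f.coeff 0 = -1)
    (h : ∀ z : ℂ, (f.map (Int.castRingHom ℂ)).eval z = 0 → 1 < ‖z‖) : f = C (f.coeff 0) := by
  set p : ℂ[X] := f.map (Int.castRingHom ℂ) with hp
  have hp0 : p.coeff 0 = ((f.coeff 0 : ℤ) : ℂ) := by
    rw [hp, coeff_map]
    rfl
  have hn0 : ‖p.coeff 0‖ = 1 := by
    rw [hp0]
    rcases h0 with h0 | h0 <;> rw [h0] <;> simp
  have hpne : p ≠ 0 := by
    intro h1
    rw [h1, coeff_zero, norm_zero] at hn0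
    exact zero_ne_one hn0
  have hfne : f ≠ 0 := by
    rintro rfl
    exact hpne (Polynomial.map_zero _)
  have hspl : p.Splits := IsAlgClosed.splits p
  have h1 := hspl.coeff_zero_eq_leadingCoeff_mul_prod_roots
  have hlead : 1 ≤ ‖p.leadingCoeff‖ := by
    have h2 : p.leadingCoeff = ((f.leadingCoeff : ℤ) : ℂ) := by
      rw [hp, leadingCoeff_map_of_injective (by exact Int.cast_injective)]
      rfl
    rw [h2, Complex.norm_intCast]
    exact_mod_cast Int.one_le_abs (leadingCoeff_ne_zero.2 hfne)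
  have hr : ∀ s : Multiset ℂ, (∀ z ∈ s, 1 < ‖z‖) → 1 ≤ ‖s.prod‖ ∧ (s ≠ 0 → 1 < ‖s.prod‖) := by
    intro s
    induction s using Multiset.induction_on with
    | empty =>
      intro _
      rw [Multiset.prod_zero, norm_one]
      exact ⟨le_rfl, fun h => absurd rfl h⟩
    | cons a s ih =>
      intro hs
      have ha := hs a (Multiset.mem_cons_self a s)
      have h2 := (ih fun z hz => hs z (Multiset.mem_cons_of_mem hz)).1
      rw [Multiset.prod_cons, norm_mul]
      have h3 : 1 < ‖a‖ * ‖s.prod‖ := lt_of_lt_of_le ha (le_mul_of_one_le_right (norm_nonneg _) h2)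
      exact ⟨h3.le, fun _ => h3⟩
  have hroots : p.roots = 0 := by
    by_contra hcon
    have h2 := (hr p.roots fun z hz => h z (isRoot_of_mem_roots hz)).2 hcon
    have h3 := congrArg norm h1
    rw [norm_mul, norm_mul, hn0, norm_pow, norm_neg, norm_one, one_pow, one_mul] at h3
    have h4 : 1 < ‖p.leadingCoeff‖ * ‖p.roots.prod‖ :=
      lt_of_lt_of_le h2 (le_mul_of_one_le_left (norm_nonneg _) hlead)
    rw [← h3] at h4
    exact lt_irrefl _ h4
  have hdeg : p.natDegree = 0 := by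
    rw [hspl.natDegree_eq_card_roots, hroots, Multiset.card_zero]
  rw [hp, natDegree_map_eq_of_injective (by exact Int.cast_injective)] at hdeg
  exact eq_C_of_natDegree_eq_zero hdeg

/-- a coefficient of a z-free element is a monomial. -/
theorem zfree_mono {L : Type} [AddCommGroup L] {G : AO ℤ L} (hG : ZFree G) (a : L) :
    ∃ (k g : ℤ), G.coeff a = LaurentPolynomial.C g * LaurentPolynomial.T k := by
  obtain ⟨q, l, n, hq, h⟩ := hG
  by_cases h0 : G.coeff a = 0
  · exact ⟨0, 0, by rw [h0, map_zero, zero_mul]⟩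
  · obtain ⟨k, hk⟩ : ∃ k : ℤ, (G.coeff a).coeff k ≠ 0 := by
      by_contra hcon
      push Not at hcon
      apply h0
      apply AddMonoidAlgebra.ext
      ext k
      exact hcon k
    refine ⟨k, (G.coeff a).coeff k, ?_⟩
    rw [← LaurentPolynomial.single_eq_C_mul_T]
    apply AddMonoidAlgebra.ext
    ext k'
    rw [AddMonoidAlgebra.coeff_single, Finsupp.single_apply]
    split_ifs with h1
    · rw [h1]
    · by_contra h2
      apply h1
      have e1 := h a k hk
      have e2 := h a k' h2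
      have e3 : (q : ℤ) * k = (q : ℤ) * k' := by rw [e1, e2]
      exact mul_left_cancel₀ (by exact_mod_cast hq.ne') e3

/-- normal form of an element of class `V`. -/
theorem classV_nf {N : ℝ} {Q : RO ℤ} (h : ClassV N Q) : ∃ (n : ℤ) (q : ℤ[X]),
    Q = LaurentPolynomial.T n * toLaurent q ∧ |(q.coeff 0 : ℝ)| = N ∧ q.coeff 0 ≠ 0 ∧
      ∀ z : ℂ, ‖z‖ < 1 → (q.map (Int.castRingHom ℂ)).eval z ≠ 0 := by
  obtain ⟨hN, n, q, hQ, h0, hz⟩ := h
  have e : |(q.coeff 0 : ℝ)| = N := by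
    rw [← h0]
    change _ = ‖((q.coeff 0 : ℤ) : ℂ)‖
    rw [Complex.norm_intCast]
  refine ⟨n, q, hQ, e, ?_, hz⟩
  intro h1
  rw [h1, Int.cast_zero, abs_zero] at e
  rw [← e] at hN
  exact absurd hN (by norm_num)

/-- the key step: `c * (g T^k)` up to a unit is `T^m p`. -/
theorem key {c : RO ℤ} (hc : ClassV 1 c) : ∃ (ct : ℤ[X]), (ct.coeff 0 = 1 ∨ ct.coeff 0 = -1) ∧
    (∀ z : ℂ, ‖z‖ < 1 → (ct.map (Int.castRingHom ℂ)).eval z ≠ 0) ∧
    ∀ (L : Type) (_ : AddCommGroup L) (G : AO ℤ L), ZFree G → ∀ (a : L) (e : (RO ℤ)ˣ) (m : ℤ) (p : ℤ[X]),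
      p.coeff 0 ≠ 0 → (e : RO ℤ) * (c * G.coeff a) = LaurentPolynomial.T m * toLaurent p →
        ∃ g : ℤ, p = C g * ct := by
  obtain ⟨n, ct, hct, h1, h0, hz⟩ := classV_nf hc
  refine ⟨ct, ?_, hz, ?_⟩
  · have h2 : |ct.coeff 0| = 1 := by exact_mod_cast h1
    exact (abs_eq (by norm_num)).1 h2
  · intro L _ G hG a e m p hp h
    obtain ⟨k, g, hg⟩ := zfree_mono hG a
    obtain ⟨j, ε, hε, he⟩ := MP_b5021c_nt.Unr.unit_R (e : RO ℤ) e.isUnit
    have hg0 : g ≠ 0 := by
      rintro rfl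
      rw [hg, map_zero, zero_mul, mul_zero, mul_zero] at h
      have h2 : toLaurent p = 0 := by
        rcases mul_eq_zero.1 h.symm with h3 | h3
        · exact absurd h3 (LaurentPolynomial.isUnit_T m).ne_zero
        · exact h3
      apply hp
      rw [toLaurent_injective (h2.trans (map_zero _).symm), coeff_zero]
    have hε0 : ε ≠ 0 := by
      rcases hε with h2 | h2 <;> rw [h2] <;> norm_num
    have h3 : (LaurentPolynomial.T (j + n + k) * toLaurent (C (ε * g) * ct) : RO ℤ) =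
        LaurentPolynomial.T m * toLaurent p := by
      rw [← h, hct, hg, he, LaurentPolynomial.single_eq_C_mul_T, LaurentPolynomial.T_add,
        LaurentPolynomial.T_add, map_mul toLaurent, toLaurent_C, map_mul LaurentPolynomial.C]
      ring
    have h4 : (C (ε * g) * ct).coeff 0 ≠ 0 := by
      rw [coeff_C_mul]
      exact mul_ne_zero (mul_ne_zero hε0 hg0) h0
    exact ⟨ε * g, (T_eq h4 hp h3).2.symm⟩

theorem f_const {q f ct : ℤ[X]} {θ : ℝ} {sg : ℤ} (hW : WPol θ q f sg) (hq : f ∣ q) {g : ℤ}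
    (hg : g ≠ 0) (hf : f ∣ C g * ct)
    (hz : ∀ z : ℂ, ‖z‖ < 1 → (ct.map (Int.castRingHom ℂ)).eval z ≠ 0) : f = C (f.coeff 0) := by
  refine const_of_roots f ?_ ?_
  · rw [hW.f0]
    rcases hW.sg2 with h1 | h1 <;> rcases hW.q0 with h2 | h2 <;> rw [h1, h2] <;> norm_num
  · intro z h0
    obtain ⟨x, hx⟩ := hq
    obtain ⟨y, hy⟩ := hf
    have hqz : (q.map (Int.castRingHom ℂ)).eval z = 0 := by
      rw [hx, Polynomial.map_mul, eval_mul, h0, zero_mul]
    have hcz : (ct.map (Int.castRingHom ℂ)).eval z = 0 := by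
      have h1 : ((C g * ct).map (Int.castRingHom ℂ)).eval z = 0 := by
        rw [hy, Polynomial.map_mul, eval_mul, h0, zero_mul]
      rw [Polynomial.map_mul, eval_mul, map_C, eval_C] at h1
      rcases mul_eq_zero.1 h1 with h2 | h2
      · exfalso
        apply hg
        have h3 : ((g : ℤ) : ℂ) = 0 := h2
        exact_mod_cast h3
      · exact h2
    rcases lt_trichotomy ‖z‖ 1 with h1 | h1 | h1
    · exact absurd hcz (hz z h1)
    · exact absurd hqz (hW.nz z h1)
    · exact h1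

/-- evaluation at the zero. -/
theorem root_eq {q : ℤ[X]} {f0 sg : ℤ} {θ : ℝ} {r : ℤ[X]} (hf0 : f0 ≠ 0) (hq : q = C f0 * r)
    (hroot : (q.map (Int.castRingHom ℂ)).eval ((sg : ℂ) / (θ : ℂ)) = 0) :
    (r.map (Int.castRingHom ℂ)).eval ((sg : ℂ) / (θ : ℂ)) = 0 := by
  rw [hq, Polynomial.map_mul, eval_mul, map_C, eval_C] at hroot
  rcases mul_eq_zero.1 hroot with h | h
  · exfalso
    apply hf0
    have h3 : ((f0 : ℤ) : ℂ) = 0 := h
    exact_mod_cast h3
  · exact h

theorem zfa : ZfaS := by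
  intro L _ _ _ G S c m q f sg θ n e hW hZ hc hG h1 h2 h3
  obtain ⟨ct, hct, hcz, hkey⟩ := key hc
  have hsg : sg * sg = 1 := by rcases hW.sg2 with h | h <;> rw [h] <;> norm_num
  have hsg0 : sg ≠ 0 := by rcases hW.sg2 with h | h <;> rw [h] <;> norm_num
  have hq0 : q.coeff 0 ≠ 0 := by rcases hW.q0 with h | h <;> rw [h] <;> norm_num
  have hqq : q.coeff 0 * q.coeff 0 = 1 := by rcases hW.q0 with h | h <;> rw [h] <;> norm_num
  have hf0 : f.coeff 0 ≠ 0 := by
    rw [hW.f0]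
    exact mul_ne_zero hsg0 hq0
  have hn : (1 : ℝ) ≤ n := hG.1
  have hn0 : (n : ℤ) ≠ 0 := by
    intro h
    have : (n : ℝ) = 0 := by exact_mod_cast h
    linarith
  -- the coefficient of the ray
  obtain ⟨g, hg⟩ := hkey L _ G hZ S e 0 ((X + C sg) * f) (by
    rw [mul_coeff_zero, coeff_add, coeff_X_zero, coeff_C_zero, zero_add]
    exact mul_ne_zero hsg0 hf0) (by rw [h3, LaurentPolynomial.T_zero, one_mul])
  -- constant coefficients: `g = ± 1`
  have hg0 : sg * (sg * q.coeff 0) = g * ct.coeff 0 := by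
    have := congrArg (fun p => p.coeff 0) hg
    simp only [mul_coeff_zero, coeff_add, coeff_X_zero, coeff_C_zero, zero_add] at this
    rw [hW.f0] at this
    exact this
  have hgne : g ≠ 0 := by
    rintro rfl
    rw [zero_mul, ← mul_assoc, hsg, one_mul] at hg0
    exact hq0 hg0
  have hct2 : ct.coeff 0 * ct.coeff 0 = 1 := by rcases hct with h | h <;> rw [h] <;> norm_num
  have hss : sg * (sg * q.coeff 0) = q.coeff 0 := by rw [← mul_assoc, hsg, one_mul]
  have hgg : g * g = 1 := by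
    have h4 : (g * ct.coeff 0) * (g * ct.coeff 0) = 1 := by
      rw [← hg0, hss, hqq]
    calc g * g = (g * g) * (ct.coeff 0 * ct.coeff 0) := by rw [hct2, mul_one]
      _ = (g * ct.coeff 0) * (g * ct.coeff 0) := by ring
      _ = 1 := h4
  -- the constant coefficient
  have hpc : (q - C sg * f).coeff 0 = 0 := by
    rw [coeff_sub, coeff_C_mul, hW.f0, ← mul_assoc, hsg, one_mul, sub_self]
  obtain ⟨u, hu⟩ := X_dvd_iff.2 hpc
  have hu0 : u.coeff 0 = -(sg * q.coeff 0 * n) := by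
    rw [← h1, hu, coeff_X_mul]
  have hu0' : u.coeff 0 ≠ 0 := by
    rw [hu0]
    exact neg_ne_zero.2 (mul_ne_zero (mul_ne_zero hsg0 hq0) hn0)
  have h4 : c * G.coeff 0 = LaurentPolynomial.T (m + 1) * toLaurent u := by
    rw [h2, hu, map_mul, toLaurent_X, LaurentPolynomial.T_add, mul_assoc]
  obtain ⟨g', hg'⟩ := hkey L _ G hZ 0 1 (m + 1) u hu0' (by rw [Units.val_one, one_mul, h4])
  -- q = f (sg - sg n X (X + sg))
  have hu2 : u = C (g' * g) * ((X + C sg) * f) := by
    have : C (g' * g) * ((X + C sg) * f) = C g' * (C (g * g) * ct) := by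
      rw [hg, C_mul, C_mul]
      ring
    rw [this, hgg, C_1, one_mul, hg']
  have hq2 : q = f * (C sg + X * (C (g' * g) * (X + C sg))) := by
    have : q = C sg * f + X * u := by rw [← hu]; ring
    rw [this, hu2]
    ring
  have hgn : g' * g = -(sg * n) := by
    have h5 := hu0
    rw [hu2, coeff_C_mul, mul_coeff_zero, coeff_add, coeff_X_zero, coeff_C_zero, zero_add, hW.f0,
      ← mul_assoc sg sg, hsg, one_mul] at h5
    have h6 : (g' * g) * q.coeff 0 = (-(sg * n)) * q.coeff 0 := by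
      rw [h5]
      ring
    exact mul_right_cancel₀ hq0 h6
  have hfc := f_const hW ⟨_, hq2⟩ hgne (⟨X + C sg, by rw [← hg]; ring⟩) hcz
  have hroot := root_eq hf0 (by rw [← hfc]; exact hq2) hW.root
  rw [hgn] at hroot
  simp only [Polynomial.map_add, Polynomial.map_mul, map_C, map_X, eval_add, eval_mul, eval_C,
    eval_X] at hroot
  simp only [eq_intCast] at hroot
  push_cast at hroot
  have hθ : (θ : ℂ) ≠ 0 := by
    have := hW.th
    exact_mod_cast (by linarith : θ ≠ 0)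
  have hsgC : (sg : ℂ) * sg = 1 := by exact_mod_cast hsg
  have hsgC0 : (sg : ℂ) ≠ 0 := by exact_mod_cast hsg0
  obtain ⟨x, hx⟩ : ∃ x : ℂ, x = (sg : ℂ) / (θ : ℂ) := ⟨_, rfl⟩
  have hxθ : x * (θ : ℂ) = sg := by rw [hx, div_mul_cancel₀ _ hθ]
  rw [← hx] at hroot
  have h7 : ((n : ℂ)) * ((θ : ℂ) + 1) = (θ : ℂ) ^ 2 := by
    have h8 : (sg : ℂ) * ((θ : ℂ) ^ 2 - (n : ℂ) * ((θ : ℂ) + 1)) = 0 := by
      have e1 : x * x * (θ : ℂ) ^ 2 = 1 := by
        calc x * x * (θ : ℂ) ^ 2 = (x * θ) * (x * θ) := by ring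
          _ = 1 := by rw [hxθ, hsgC]
      have e2 : x * (sg : ℂ) * (θ : ℂ) ^ 2 = θ := by
        calc x * (sg : ℂ) * (θ : ℂ) ^ 2 = (x * θ) * sg * θ := by ring
          _ = θ := by rw [hxθ, hsgC, one_mul]
      linear_combination (θ : ℂ) ^ 2 * hroot + (sg : ℂ) * (n : ℂ) * e1 + (sg : ℂ) * (n : ℂ) * e2
    have h9 := (mul_eq_zero.1 h8).resolve_left hsgC0
    linear_combination -h9
  exact_mod_cast h7

theorem zfb : ZfbS := by
  intro L _ _ _ G b c m q f sg θ n e hW hZ hc hG h1 h2 h3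
  obtain ⟨ct, hct, hcz, hkey⟩ := key hc
  have hsg : sg * sg = 1 := by rcases hW.sg2 with h | h <;> rw [h] <;> norm_num
  have hsg0 : sg ≠ 0 := by rcases hW.sg2 with h | h <;> rw [h] <;> norm_num
  have hq0 : q.coeff 0 ≠ 0 := by rcases hW.q0 with h | h <;> rw [h] <;> norm_num
  have hf0 : f.coeff 0 ≠ 0 := by
    rw [hW.f0]
    exact mul_ne_zero hsg0 hq0
  have hff : f.coeff 0 * f.coeff 0 = 1 := by
    rw [hW.f0]
    rcases hW.q0 with h | h <;> rcases hW.sg2 with h' | h' <;> rw [h, h'] <;> norm_num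
  have hn : (1 : ℝ) ≤ n := hG.1
  have hn0 : (n : ℤ) ≠ 0 := by
    intro h
    have : (n : ℝ) = 0 := by exact_mod_cast h
    linarith
  -- the coefficient of `b`
  obtain ⟨g, hg⟩ := hkey L _ G hZ b e 0 f hf0 (by rw [h3, LaurentPolynomial.T_zero, one_mul])
  have hg0 : f.coeff 0 = g * ct.coeff 0 := by
    have := congrArg (fun p => p.coeff 0) hg
    simp only [coeff_C_mul] at this
    exact this
  have hgne : g ≠ 0 := by
    rintro rfl
    rw [zero_mul] at hg0
    exact hf0 hg0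
  have hct2 : ct.coeff 0 * ct.coeff 0 = 1 := by rcases hct with h | h <;> rw [h] <;> norm_num
  have hgg : g * g = 1 := by
    calc g * g = (g * g) * (ct.coeff 0 * ct.coeff 0) := by rw [hct2, mul_one]
      _ = (g * ct.coeff 0) * (g * ct.coeff 0) := by ring
      _ = 1 := by rw [← hg0, hff]
  -- the constant coefficient
  have hsf : sg * f.coeff 0 = q.coeff 0 := by rw [hW.f0, ← mul_assoc, hsg, one_mul]
  have hpc : (q + (X + C sg * X ^ 2 - C sg) * f).coeff 0 = 0 := by
    rw [coeff_add, mul_coeff_zero, coeff_sub, coeff_add, coeff_X_zero, coeff_C_zero, coeff_C_mul,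
      coeff_X_pow, if_neg (by norm_num), mul_zero, zero_add, zero_sub, neg_mul, hsf, add_neg_cancel]
  obtain ⟨u, hu⟩ := X_dvd_iff.2 hpc
  have hu0 : u.coeff 0 = -((n : ℤ) * f.coeff 0) := by
    rw [← coeff_X_mul, ← hu]
    have e1 : q + (X + C sg * X ^ 2 - C sg) * f = (q - C sg * f) + X * (f + C sg * (X * f)) := by
      ring
    rw [e1, coeff_add, h1, coeff_X_mul, coeff_add, coeff_C_mul, coeff_X_mul_zero, mul_zero,
      add_zero, ← hsf]
    have e2 : sg * (sg * f.coeff 0) = f.coeff 0 := by rw [← mul_assoc, hsg, one_mul]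
    rw [e2]
    ring
  have hu0' : u.coeff 0 ≠ 0 := by
    rw [hu0]
    exact neg_ne_zero.2 (mul_ne_zero hn0 hf0)
  have h4 : c * G.coeff 0 = LaurentPolynomial.T (m + 1) * toLaurent u := by
    rw [h2, hu, map_mul, toLaurent_X, LaurentPolynomial.T_add, mul_assoc]
  obtain ⟨g', hg'⟩ := hkey L _ G hZ 0 1 (m + 1) u hu0' (by rw [Units.val_one, one_mul, h4])
  have hu2 : u = C (g' * g) * f := by
    have : C (g' * g) * f = C g' * (C (g * g) * ct) := by
      conv_lhs => rw [hg]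
      rw [C_mul, C_mul]
      ring
    rw [this, hgg, C_1, one_mul, hg']
  have hgn : g' * g = -(n : ℤ) := by
    have h5 := hu0
    rw [hu2, coeff_C_mul] at h5
    have h6 : (g' * g) * f.coeff 0 = (-(n : ℤ)) * f.coeff 0 := by
      rw [h5]
      ring
    exact mul_right_cancel₀ hf0 h6
  have hq2 : q = f * (C sg - X * (C ((n : ℤ) + 1) + C sg * X)) := by
    have h5 : q = X * u - (X + C sg * X ^ 2 - C sg) * f := by rw [← hu]; ring
    rw [h5, hu2, hgn, C_neg, C_add, C_1]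
    ring
  have hfc := f_const hW ⟨_, hq2⟩ hgne (⟨1, by rw [mul_one]; exact hg.symm⟩) hcz
  have hroot := root_eq hf0 (by rw [← hfc]; exact hq2) hW.root
  simp only [Polynomial.map_add, Polynomial.map_sub, Polynomial.map_mul, map_C, map_X, eval_add,
    eval_sub, eval_mul, eval_C, eval_X] at hroot
  simp only [eq_intCast] at hroot
  push_cast at hroot
  have hθ : (θ : ℂ) ≠ 0 := by
    have := hW.th
    exact_mod_cast (by linarith : θ ≠ 0)
  have hsgC : (sg : ℂ) * sg = 1 := by exact_mod_cast hsg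
  have hsgC0 : (sg : ℂ) ≠ 0 := by exact_mod_cast hsg0
  obtain ⟨x, hx⟩ : ∃ x : ℂ, x = (sg : ℂ) / (θ : ℂ) := ⟨_, rfl⟩
  have hxθ : x * (θ : ℂ) = sg := by rw [hx, div_mul_cancel₀ _ hθ]
  rw [← hx] at hroot
  have h7 : ((n : ℂ) + 1) * (θ : ℂ) = (θ : ℂ) ^ 2 - 1 := by
    have h8 : (sg : ℂ) * ((θ : ℂ) ^ 2 - 1 - ((n : ℂ) + 1) * (θ : ℂ)) = 0 := by
      have e1 : x * x * (θ : ℂ) ^ 2 = 1 := by
        calc x * x * (θ : ℂ) ^ 2 = (x * θ) * (x * θ) := by ring
          _ = 1 := by rw [hxθ, hsgC]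
      have e2 : x * (θ : ℂ) ^ 2 = sg * θ := by
        calc x * (θ : ℂ) ^ 2 = (x * θ) * θ := by ring
          _ = sg * θ := by rw [hxθ]
      linear_combination (θ : ℂ) ^ 2 * hroot + ((n : ℂ) + 1) * e2 + (sg : ℂ) * e1
    have h9 := (mul_eq_zero.1 h8).resolve_left hsgC0
    linear_combination -h9
  exact_mod_cast h7

end Pool.Agent.B5.H78
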