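import Pool.Agent.Lib.MP_b5021c_nt.E.H78.Wps

/-!
# MP_b5021c_nt, chapter EF, row EF_FCL: Theorem Z
-/

namespace Pool.Agent.B5.H78

open scoped LaurentPolynomial
open Polynomial Pool.Agent.B5

section

variable {O : Type} [CommRing O] {L : Type} [AddCommGroup L]

theorem cstm (c : RO O) (G : AO O L) (a : L) : (cst c * G).coeff a = c * G.coeff a := by
  unfold cst
  rw [AddMonoidAlgebra.coeff_single_zero_mul]

theorem cst_cst (c d : RO O) : (cst c * cst d : AO O L) = cst (c * d) := by
  unfold cst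
  rw [AddMonoidAlgebra.single_mul_single, add_zero]

theorem cst_one : (cst 1 : AO O L) = 1 := rfl

theorem isUnit_cst {c : RO O} (hc : IsUnit c) : IsUnit (cst c : AO O L) := by
  obtain ⟨v, rfl⟩ := hc
  refine ⟨⟨cst (v : RO O), cst ((v⁻¹ : (RO O)ˣ) : RO O), ?_, ?_⟩, rfl⟩
  · rw [cst_cst, Units.mul_inv, cst_one]
  · rw [cst_cst, Units.inv_mul, cst_one]

theorem supp_cst_mul [IsDomain O] {c : RO O} (hc : c ≠ 0) (G : AO O L) :
    supp (cst c * G) = supp G := by
  ext a
  change (cst c * G).coeff a ≠ 0 ↔ G.coeff a ≠ 0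
  rw [cstm]
  constructor
  · intro h h0
    rw [h0, mul_zero] at h
    exact h rfl
  · intro h
    exact mul_ne_zero hc h

theorem pos_iff (lam : L →+ ℤ) (G : AO O L) : Pos lam G ↔ ∀ a ∈ supp G, a ≠ 0 → 0 < lam a := by
  constructor
  · intro h a ha
    exact h a (Finsupp.mem_support_iff.mpr ha)
  · intro h a ha
    exact h a (Finsupp.mem_support_iff.mp ha)

variable [Coef O]

theorem sl_cstm [IsDomain O] (z : Circle) (u : AddChar L Circle) (lam : L →+ ℤ) (c : RO O)
    (G : AO O L) (s : ℂ) :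
    (sl u lam (spec z (cst c * G))).eval s = evR z c * (sl u lam (spec z G)).eval s := by
  classical
  rw [H59.sl_eval, H59.sl_eval,
    H59.spec_sum z (cst c * G) (fun a x => x * (u a : ℂ) * s ^ (lam a).toNat) (by intro a; simp),
    H59.spec_sum z G (fun a x => x * (u a : ℂ) * s ^ (lam a).toNat) (by intro a; simp)]
  rw [Finsupp.sum_of_support_subset (s := G.coeff.support)]
  · rw [Finsupp.sum, Finset.mul_sum]
    refine Finset.sum_congr rfl fun a _ => ?_
    rw [cstm, map_mul]
    ring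
  · intro a ha
    rw [Finsupp.mem_support_iff, cstm] at ha
    rw [Finsupp.mem_support_iff]
    intro h
    rw [h, mul_zero] at ha
    exact ha rfl
  · intro a _
    simp

theorem stable_cst [IsDomain O] {c : RO O} (hc : c ≠ 0) (hz : ∀ z : Circle, evR z c ≠ 0)
    {G : AO O L} (h : Stable G) : Stable (cst c * G) := by
  obtain ⟨h0, lam, hl, hs⟩ := h
  refine ⟨?_, lam, ?_, ?_⟩
  · rw [cstm]
    exact mul_ne_zero hc h0
  · rw [pos_iff, supp_cst_mul hc]
    exact (pos_iff lam G).mp hl
  · intro z hz0 u s hs1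
    rw [cstm, map_mul] at hz0
    rw [sl_cstm]
    exact mul_ne_zero (hz z) (hs z (right_ne_zero_of_mul hz0) u s hs1)

theorem unitary_cst {c : RO O} (hc : IsUnit c) {G : AO O L} (h : Unitary G) :
    Unitary (cst c * G) := by
  unfold Unitary at h ⊢
  rw [map_mul]
  have h1 : IsUnit (sharp (cst c : AO O L)) := (isUnit_cst hc).map sharp
  exact (associated_unit_mul_left _ _ h1).trans
    (h.trans (associated_unit_mul_left _ _ (isUnit_cst hc)).symm)

theorem dd_cst [IsDomain O] {P : Type} [Fintype P] [DecidableEq P] {phi : L →+ (P → ℤ)}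
    {c : RO O} (hc : IsUnit c) (hz : ∀ z : Circle, evR z c ≠ 0) {G : AO O L} (h : DD phi G) :
    DD phi (cst c * G) := by
  have hc0 : c ≠ 0 := hc.ne_zero
  refine ⟨h.inj, ?_, stable_cst hc0 hz h.st, unitary_cst hc h.un, ?_, ?_⟩
  · intro a ha
    rw [supp_cst_mul hc0] at ha
    exact h.bin a ha
  · exact (associated_unit_mul_left _ _ (isUnit_cst hc)).symm.irreducible h.irr
  · rw [supp_cst_mul hc0]
    exact h.spn

theorem T_mul_coeff (n k : ℤ) (p : RO O) :
    (LaurentPolynomial.T n * p : RO O).coeff k = p.coeff (k - n) := by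
  have h : (LaurentPolynomial.T n : RO O) = AddMonoidAlgebra.single n 1 := rfl
  rw [h, AddMonoidAlgebra.coeff_single_mul_eq_mul_coeff (k - n), one_mul]
  intro m _
  constructor
  · intro h1
    rw [← h1, add_sub_cancel_left]
  · intro h1
    rw [h1, add_sub_cancel]

end

/-- A nonempty finite set of integers has a least element. -/
theorem exists_min (s : Finset ℤ) (hs : s.Nonempty) : ∃ m ∈ s, ∀ k ∈ s, m ≤ k := by
  refine ⟨s.min' hs, s.min'_mem hs, fun k hk => s.min'_le k hk⟩

theorem ef_fcl (hVtx : VtxS) (hWst : WstS) (hWps : WpsS) (hWdv : WdvS) (hWho : WhoS)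
    (hWcm : WcmS) (hPrim : PrimS) : FclS := by
  intro O _ _ _ _ P L _ _ _ _ _ phi D N hD hN hrk
  classical
  obtain ⟨hN1, n, q0, hDn, hq0N, hzf⟩ := hN
  -- the normalised element
  have hTu : IsUnit (LaurentPolynomial.T (-n) : RO O) := LaurentPolynomial.isUnit_T _
  have hTz : ∀ z : Circle, evR z (LaurentPolynomial.T (-n) : RO O) ≠ 0 := fun z =>
    (hTu.map (evR z)).ne_zero
  set D1 : AO O L := cst (LaurentPolynomial.T (-n)) * D with hD1
  have hDD : DD phi D1 := dd_cst hTu hTz hD
  have hc0 : D1.coeff 0 = Polynomial.toLaurent q0 := by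
    rw [hD1, cstm, hDn, ← mul_assoc, ← LaurentPolynomial.T_add, neg_add_cancel,
      LaurentPolynomial.T_zero, one_mul]
  have hq0 : q0.coeff 0 ≠ 0 := by
    intro hz
    apply hzf 0 (by simp)
    rw [← Polynomial.coeff_zero_eq_eval_zero, Polynomial.coeff_map, hz, map_zero]
  have h00 : (D1.coeff 0).coeff 0 ≠ 0 := by
    rw [hc0, toLaurent_coeff, if_pos le_rfl]
    simpa using hq0
  have hneg : ∀ k : ℤ, (D1.coeff 0).coeff k ≠ 0 → 0 ≤ k := by
    intro k hk
    by_contra h1
    rw [hc0, toLaurent_coeff, if_neg h1] at hk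
    exact hk rfl
  have hne : ∀ (a : L) (k : ℤ), (D1.coeff a).coeff k ≠ 0 → D1.coeff a ≠ 0 := by
    intro a k hk h0
    rw [h0] at hk
    exact hk rfl
  -- the least exponents
  have hex : ∀ a : L, ∃ m : ℤ, D1.coeff a ≠ 0 → ((D1.coeff a).coeff m ≠ 0 ∧
      ∀ k, (D1.coeff a).coeff k ≠ 0 → m ≤ k) := by
    intro a
    by_cases ha : D1.coeff a = 0
    · exact ⟨0, fun h => absurd ha h⟩
    · have hs : (D1.coeff a).coeff.support.Nonempty := by
        rw [Finsupp.support_nonempty_iff]
        intro h1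
        apply ha
        apply AddMonoidAlgebra.ext
        exact h1
      obtain ⟨m, hm, hmin⟩ := exists_min _ hs
      exact ⟨m, fun _ => ⟨Finsupp.mem_support_iff.mp hm,
        fun k hk => hmin k (Finsupp.mem_support_iff.mpr hk)⟩⟩
  choose m hm using hex
  obtain ⟨lam, hlam⟩ : ∃ lam : L →+ ℤ, Pos lam D1 := by
    obtain ⟨_, lam, hl, _⟩ := hDD.st
    exact ⟨lam, hl⟩
  have hm0 : 0 ≤ m 0 := hneg _ (hm 0 (hne 0 0 h00)).1
  obtain ⟨q, l, hq, hle, hspan⟩ := hVtx L D1.coeff.support m lam hlam hm0 (by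
    have h1 : ((D1.coeff.support : Finset L) : Set L) = supp D1 := by
      ext a
      simp [supp]
    rw [h1]
    exact hDD.spn)
  -- primitivity
  have hwdep : Wdep D1 := by
    have h1 : ∃ a ∈ supp D1, a ≠ 0 := by
      by_contra hcon
      push Not at hcon
      have h2 : rk (supp D1) = 0 := by
        have h3 : Submodule.span ℤ (supp D1) = ⊥ := by
          rw [Submodule.span_eq_bot]
          exact hcon
        unfold rk
        rw [h3, finrank_bot]
      rw [hDD.spn] at h2
      omega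
    obtain ⟨a, ha, ha0⟩ := h1
    exact ⟨a, ha, 0, hDD.st.1, ha0⟩
  have hprim : Prim D1 := (hPrim O L D1 D1).2.1 hDD.irr hwdep
  have hE : EFD D1 q0 q l := by
    refine ⟨hDD.st, hprim, hc0, hzf, hq, ?_⟩
    intro a k hk
    have h1 := hle a (Finsupp.mem_support_iff.mpr (hne a k hk))
    have h2 := (hm a (hne a k hk)).2 k hk
    have h3 : (q : ℤ) * m a ≤ (q : ℤ) * k := mul_le_mul_of_nonneg_left h2 (by positivity)
    linarith
  have hV0 : Stable (wp q l 0 D1) := (hWst O L D1 q0 q l hE).1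
  have hV0ne : wp q l 0 D1 ≠ 0 := by
    intro h0
    apply hV0.1
    rw [h0]
    rfl
  obtain ⟨c, G, hc, hVG, hG⟩ := (hPrim O L (wp q l 0 D1) D1).2.2 hV0ne
  have hrkG : rk (supp G) = Module.finrank ℤ L := by
    rw [← supp_cst_mul hc G, ← hVG]
    apply le_antisymm
    · unfold rk
      exact Submodule.finrank_le _
    · rw [← hspan]
      unfold rk
      apply Submodule.finrank_mono
      apply Submodule.span_mono
      intro a ha
      obtain ⟨ha1, ha2⟩ := ha
      have ha3 : D1.coeff a ≠ 0 := Finsupp.mem_support_iff.mp ha1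
      intro h0
      apply (hm a ha3).1
      have h1 := wp_coeff q l 0 D1 a (m a)
      rw [h0, if_pos (by rw [ha2]; ring)] at h1
      exact h1.symm
  by_cases hcase : ∃ h : AO O L, Irreducible h ∧ h ∣ G ∧ h ∣ sharp G
  · left
    obtain ⟨h, hirr, hhG, hhG'⟩ := hcase
    have hdv := hWdv O L D1 q0 q l c G h hE hc hVG hG hirr hhG hhG'
    obtain ⟨mm, hsum, _⟩ := hWps O L D1 q0 q l hE
    have hhD : h ∣ D1 := by
      rw [hsum]
      exact Finset.dvd_sum fun j _ => hdv j
    have hass : Associated h D1 := (hirr.dvd_irreducible_iff_associated hDD.irr).mp hhD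
    have hDV : D1 ∣ wp q l 0 D1 := hass.symm.dvd.trans (hdv 0)
    have hEq := hWho O L D1 q0 q l hE hDD.un hDV
    refine ⟨q, l, n, hq, ?_⟩
    intro a k hk
    have h1 : (D1.coeff a).coeff (k - n) ≠ 0 := by
      rw [hD1, cstm, T_mul_coeff, sub_neg_eq_add, sub_add_cancel]
      exact hk
    rw [hEq] at h1
    have h2 := (wp_ne h1).1
    linarith [mul_sub (q : ℤ) k n]
  · right
    push Not at hcase
    obtain ⟨b, hDb, N', hN', hcl⟩ := hWcm O P L phi D1 q0 q l c G hDD hE hc hVG hG hrkG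
      (fun h h1 h2 h3 => hcase h h1 h2 h3)
    refine ⟨N', b, compl G, by rw [← hq0N]; exact hN', hDb, hcl, ?_⟩
    rw [Module.finrank_prod, Module.finrank_self]

end Pool.Agent.B5.H78
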