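import Pool.Agent.Lib.MP_b5021c_nt.IfaceEF
import Pool.Agent.Lib.MP_b5021c_nt.Z.H39.Vtx

/-!
# MP_b5021c_nt, chapter EF, row EF_VTX (from helper39's theorem vtx)
-/

namespace Pool.Agent.B5.H78

theorem ef_vtx : VtxS := by
  intro L _ _ _ S m lam hlam hm hrk
  obtain ⟨q, l, hq, hle, h⟩ := Pool.Agent.B5.Z.H39.vtx (S := (S : Set L)) S.finite_toSet m lam
    (fun b hb hb0 => hlam b hb hb0) hm
  exact ⟨q, l, hq, fun a ha => hle a ha, h.trans hrk⟩

end Pool.Agent.B5.H78
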