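import Pool.Agent.Lib.MP_b5021c_nt.E.H78.Wst
import Pool.Agent.Lib.MP_b5021c_nt.E.H78.Fcl
import Pool.Agent.Lib.MP_b5021c_nt.E.H78.Vtx
import Pool.Agent.Lib.MP_b5021c_nt.Z.H39.Ef
import Pool.Agent.Lib.MP_b5021c_nt.E.H03.Wcm

/-!
# MP_b5021c_nt, chapter EF: Theorem Z from the rows of chapters A - J
-/

namespace Pool.Agent.B5.H78

theorem ef_all (hHur : HurS) (hA3 : A3aS) (hB3 : B3S) (hC1 : C1S) (hC2 : C2S) (hB4 : B4S)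
    (hSh : SharpS) (hSt : StSpecS) (hC0 : Coeff0S) (hSl : SlMulS) (hPr : PrimS)
    (hCI : ComplIrrS) (hC : ComplS) (hUn : UnitAS) : FclS :=
  have hWst : WstS := ef_wst ef_wps hHur hA3 hB3
  ef_fcl ef_vtx hWst ef_wps
    (Pool.Agent.B5.Z.H39.wdv hWst (Pool.Agent.B5.Z.H39.ful hC2 hB4 hSh hSt hC0 hSl) hC1 hPr)
    Pool.Agent.B5.Z.H39.who (Pool.Agent.B5.H03.wcm hWst hCI hC hUn) hPr

end Pool.Agent.B5.H78
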