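import Pool.Agent.Lib.MP_b5021c_nt.IfaceE4
import Pool.Agent.Lib.MP_b5021c_nt.IfaceE6
import Pool.Agent.Lib.MP_b5021c_nt.H47.Mut

/-!
# MP_b5021c_nt, row E6_MUG: the second ray of a mutual pair after the first closing
-/

namespace Pool.Agent.B5.H78

open scoped LaurentPolynomial

theorem mug (twf : TwfS) (inj1 : Inj1S) (inj2 : Inj2S) (mco : McoS) : MugS := by
  intro O _ _ _ _ P L _ _ _ _ _ phi D S0 S1 e0 e1 kap i0 h0 S1' c G hF hr0 hr1 hm0 hm1 hS1 hk hne0 hG
  obtain ⟨hdis, hE1, hE01, -⟩ := mco O P L phi D S0 S1 e0 e1 hF.dd.inj hF.dd.bin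
    ⟨hr0, hr1, hm0, hm1⟩
  obtain ⟨-, lam, hl0, hl1, hlam⟩ := twf O P L phi D S0 S1 e0 e1 hF hr0 hr1 hm0 hm1
  have hi0 : phi S0 i0 = 1 := h0
  have hi1 : phi S1 i0 = 0 := by
    rcases hdis i0 with h | h
    · rw [hi0] at h
      exact absurd h one_ne_zero
    · exact h
  -- coefficients of the closed element
  have hco : ∀ a : Ker (co phi i0), (cst c * G).coeff a =
      D.coeff (a : L) + ((kap * e0 : (RO O)ˣ) : RO O) * D.coeff ((a : L) + S0) := by
    intro a
    rw [← hG]
    exact H47.cl_coeff_bin (co phi i0) S0 h0 (kap * e0) D (fun a ha => hF.dd.bin a ha i0) a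
  have hcG : ∀ a : Ker (co phi i0), (cst c * G).coeff a = c * G.coeff a := by
    intro a
    rw [cst]
    exact AddMonoidAlgebra.coeff_single_zero_mul _ _ _
  have hkey : (e1 : RO O) * (c * G.coeff S1') =
      (1 - (kap : RO O)) * ((e0 : RO O) * D.coeff S0) := by
    rw [← hcG, hco, hS1, mul_add, hE1, Units.val_mul]
    have h1 : (e1 : RO O) * ((kap : RO O) * (e0 : RO O) * D.coeff (S1 + S0)) =
        (kap : RO O) * ((e0 : RO O) * (e1 : RO O) * D.coeff (S0 + S1)) := by
      rw [add_comm S1 S0]
      ring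
    rw [h1, hE01]
    ring
  have hkey0 : c * G.coeff 0 = D.coeff 0 + ((kap * e0 : (RO O)ˣ) : RO O) * D.coeff S0 := by
    rw [← hcG, hco]
    have h1 : ((0 : Ker (co phi i0)) : L) = 0 := rfl
    rw [h1, zero_add]
  have hc0 : c ≠ 0 := by
    rintro rfl
    apply hne0
    rw [← hkey0, zero_mul]
  have hne : (1 - (kap : RO O)) * ((e0 : RO O) * D.coeff S0) ≠ 0 := by
    refine mul_ne_zero ?_ (mul_ne_zero e0.ne_zero hr0.1)
    rw [sub_ne_zero]
    intro h
    apply hk
    apply Units.ext
    rw [Units.val_one]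
    exact h.symm
  have hT0 : G.coeff S1' ≠ 0 := by
    intro h
    apply hne
    rw [← hkey, h, mul_zero, mul_zero]
  refine ⟨⟨hT0, ?_, lam.comp (incl _), ?_, ?_⟩, hkey0, hkey, hE1.symm, ?_, ?_, ?_⟩
  · intro h
    have h2 := hS1
    rw [h] at h2
    exact hr1.2.1 h2.symm
  · change lam (S1' : L) = 0
    rw [hS1, hl1]
  · intro a ha ha0 haT
    change 0 < lam (a : L)
    have haK : phi (a : L) i0 = 0 := a.2
    have ha0' : (a : L) ≠ 0 := fun h => ha0 (Subtype.ext h)
    have haT' : (a : L) ≠ S1 := fun h => haT (Subtype.ext (h.trans hS1.symm))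
    have h1 : (cst c * G).coeff a ≠ 0 := by
      rw [hcG]
      exact mul_ne_zero hc0 ha
    rw [hco] at h1
    by_cases h2 : D.coeff (a : L) = 0
    · rw [h2, zero_add] at h1
      have h3 : (a : L) + S0 ∈ supp D := right_ne_zero_of_mul h1
      have h4 := hlam _ h3 (by
          intro h
          have := congrArg (fun b => phi b i0) h
          simp only [map_add, Pi.add_apply, haK, hi0, map_zero, Pi.zero_apply] at this
          omega) (by
          intro h
          exact ha0' (by
            have := add_right_cancel (h.trans (zero_add S0).symm)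
            exact this)) (by
          intro h
          have := congrArg (fun b => phi b i0) h
          simp only [map_add, Pi.add_apply, haK, hi0, hi1] at this
          omega) (by
          intro h
          rw [add_comm S0 S1] at h
          exact haT' (add_right_cancel h))
      rw [map_add, hl0, add_zero] at h4
      exact h4
    · refine hlam _ h2 ha0' ?_ haT' ?_
      · intro h
        rw [h, hi0] at haK
        exact one_ne_zero haK
      · intro h
        rw [h, map_add, Pi.add_apply, hi0, hi1] at haK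
        exact one_ne_zero haK
  · exact (inj1 O P L phi D hF S0 hr0).1
  · intro b hb
    have hbK : phi (b : L) i0 = 0 := b.2
    obtain ⟨k, l, hkl⟩ := inj2 O P L phi D S0 S1 e0 e1 hF hr0 hr1 hm0 hm1 (b : L) (by
      intro i h0 h1
      have h2 : phO phi S0 i0 S1' i = 0 := by
        change (if phi S0 i = 0 then phi (S1' : L) i else 0) = 0
        rw [if_pos h0, hS1, h1]
      have h3 := hb i h2
      change (if phi S0 i = 0 then phi (b : L) i else 0) = 0 at h3
      rwa [if_pos h0] at h3)
    have hk0 : k = 0 := by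
      have h1 := congrArg (fun b => phi b i0) hkl
      simp only [map_add, Pi.add_apply, map_zsmul, Pi.smul_apply, hi0, hi1, hbK, smul_eq_mul] at h1
      omega
    refine ⟨l, Subtype.ext ?_⟩
    rw [hkl, hk0, zero_smul, zero_add]
    change l • S1 = l • (S1' : L)
    rw [hS1]
  · have h1 : ∃ i, phi S1 i ≠ 0 := by
      by_contra hcon
      push Not at hcon
      apply hr1.2.1
      apply hF.dd.inj
      rw [map_zero]
      funext i
      exact hcon i
    obtain ⟨i, hi⟩ := h1
    have h2 : phi S0 i = 0 := (hdis i).resolve_right hi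
    have h3 : phi S1 i = 1 := (hF.dd.bin S1 hr1.1 i).resolve_left hi
    refine ⟨i, ?_⟩
    change (if phi S0 i = 0 then phi (S1' : L) i else 0) = 1
    rw [if_pos h2, hS1, h3]

end Pool.Agent.B5.H78
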