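import Pool.Agent.Lib.MP_b5021c_nt.IfaceE5

/-!
# MP_b5021c_nt, row E5_NC5: the zero after a load of type C
-/

namespace Pool.Agent.B5.H78

theorem nc5 : Nc5S := by
  intro T T' c h hT hT' hh hc1 hc2 hre heq
  set θ := ‖T‖ with hθ
  set t := ‖T'‖ with ht
  set d := ‖T - T'‖ with hd
  have hθ0 : (0 : ℝ) < θ := by linarith
  have ht0 : (333333 : ℝ) ≤ t := by linarith
  have ht1 : (0 : ℝ) < t := by linarith
  have hd0 : 0 ≤ d := norm_nonneg _
  have ht2 : (333333 : ℝ) * t ≤ t ^ 2 := by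
    have := mul_le_mul_of_nonneg_right ht0 ht1.le
    rw [pow_two]
    exact this
  -- step 1
  have h1 : d * (t ^ 2 - 3) ≤ θ * t := by
    have h2 : d * ‖T' ^ 2 + h‖ = ‖c‖ * t := by
      rw [hd, ht, ← norm_mul, heq, norm_mul]
    have h3 : t ^ 2 - 3 ≤ ‖T' ^ 2 + h‖ := by
      have h4 : ‖T' ^ 2‖ ≤ ‖T' ^ 2 + h‖ + ‖h‖ := by
        have := norm_sub_le (T' ^ 2 + h) h
        rwa [add_sub_cancel_right] at this
      rw [norm_pow] at h4
      linarith
    calc d * (t ^ 2 - 3) ≤ d * ‖T' ^ 2 + h‖ := mul_le_mul_of_nonneg_left h3 hd0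
      _ = ‖c‖ * t := h2
      _ ≤ θ * t := mul_le_mul_of_nonneg_right hc2 ht1.le
  have h2 : d ≤ 31 / 10 := by
    by_contra hcon
    push Not at hcon
    have h3 : (0 : ℝ) < t ^ 2 - 3 := by linarith
    have h4 : 31 / 10 * (t ^ 2 - 3) ≤ d * (t ^ 2 - 3) := mul_le_mul_of_nonneg_right hcon.le h3.le
    have h5 : θ * t ≤ 3 * t ^ 2 := by
      have : θ * t ≤ (3 * t) * t := mul_le_mul_of_nonneg_right (by linarith) ht1.le
      rw [pow_two]
      linarith
    linarith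
  have h3 : θ - 31 / 10 ≤ t := by
    have : θ ≤ t + d := by
      have := norm_add_le T' (T - T')
      rwa [add_sub_cancel] at this
    linarith
  -- step 3
  have h4 : t * ‖(T - T') * T' - c‖ = d * ‖h‖ := by
    have : T' * ((T - T') * T' - c) = -((T - T') * h) := by linear_combination heq
    rw [ht, ← norm_mul, this, norm_neg, norm_mul]
  have h5 : ‖(T - T') * T' - c‖ ≤ 1 / 100 := by
    by_contra hcon
    push Not at hcon
    have h6 : t * (1 / 100) ≤ t * ‖(T - T') * T' - c‖ := mul_le_mul_of_nonneg_left hcon.le ht1.le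
    have h7 : d * ‖h‖ ≤ 31 / 10 * 3 := mul_le_mul h2 hh (norm_nonneg _) (by norm_num)
    linarith
  have h6 : ‖(T - T') * T - c‖ ≤ 97 / 10 := by
    have h7 : (T - T') * T - c = ((T - T') * T' - c) + (T - T') * (T - T') := by ring
    rw [h7]
    have h8 : ‖(T - T') * (T - T')‖ ≤ 31 / 10 * (31 / 10) := by
      rw [norm_mul]
      exact mul_le_mul h2 h2 hd0 (by norm_num)
    have h9 := norm_add_le ((T - T') * T' - c) ((T - T') * (T - T'))
    linarith
  -- step 4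
  have h7 : θ * t ≤ ‖T ^ 2 - c‖ + 97 / 10 := by
    have h8 : T * T' = (T ^ 2 - c) - ((T - T') * T - c) := by ring
    have h9 := norm_sub_le (T ^ 2 - c) ((T - T') * T - c)
    rw [← h8, norm_mul] at h9
    linarith
  have h8 : ‖T ^ 2 - c‖ ^ 2 = θ ^ 4 + ‖c‖ ^ 2 - 2 * (c * (starRingEnd ℂ) T ^ 2).re := by
    have h9 := Complex.normSq_sub (T ^ 2) c
    rw [Complex.normSq_eq_norm_sq, Complex.normSq_eq_norm_sq, Complex.normSq_eq_norm_sq,
      norm_pow] at h9
    have h10 : ((T ^ 2) * (starRingEnd ℂ) c).re = (c * (starRingEnd ℂ) T ^ 2).re := by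
      rw [← Complex.conj_re]
      congr 1
      rw [map_mul, map_pow, Complex.conj_conj, mul_comm]
    rw [h9, h10]
    ring
  have hs3 : (173205 : ℝ) / 100000 ≤ Real.sqrt 3 := by
    rw [show (173205 : ℝ) / 100000 = Real.sqrt ((173205 / 100000) ^ 2) by
      rw [Real.sqrt_sq (by norm_num)]]
    exact Real.sqrt_le_sqrt (by norm_num)
  have h9 : ‖T ^ 2 - c‖ ≤ θ ^ 2 - 515 / 1000 * θ := by
    have hpos : 0 ≤ θ ^ 2 - 515 / 1000 * θ := by
      have : (1 : ℝ) * θ ≤ θ * θ := mul_le_mul_of_nonneg_right (by linarith) hθ0.le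
      rw [pow_two]
      linarith
    refine le_of_sq_le_sq ?_ hpos
    rw [h8]
    have hc0 : 0 ≤ ‖c‖ := norm_nonneg c
    have e1 : ‖c‖ ^ 2 ≤ θ ^ 2 := by
      rw [pow_two, pow_two]
      exact mul_le_mul hc2 hc2 hc0 hθ0.le
    have e2 : (173205 / 100000 * (6 / 10)) * θ ^ 3 ≤ 2 * (c * (starRingEnd ℂ) T ^ 2).re := by
      have e3 : 6 / 10 * θ * θ ^ 2 ≤ ‖c‖ * θ ^ 2 := mul_le_mul_of_nonneg_right hc1 (by positivity)
      have e4 : 173205 / 100000 * (6 / 10 * θ * θ ^ 2) ≤ Real.sqrt 3 * (‖c‖ * θ ^ 2) :=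
        mul_le_mul hs3 e3 (by positivity) (Real.sqrt_nonneg 3)
      have e5 : (173205 / 100000 * (6 / 10)) * θ ^ 3 = 173205 / 100000 * (6 / 10 * θ * θ ^ 2) := by ring
      rw [e5]
      linarith
    have e6 : (1000000 : ℝ) * θ ^ 2 ≤ θ ^ 3 := by
      have : (1000000 : ℝ) * θ ^ 2 ≤ θ * θ ^ 2 := mul_le_mul_of_nonneg_right hT (by positivity)
      linarith [show θ * θ ^ 2 = θ ^ 3 by ring]
    have e7 : (θ ^ 2 - 515 / 1000 * θ) ^ 2 = θ ^ 4 - 1030 / 1000 * θ ^ 3 + 265225 / 1000000 * θ ^ 2 := by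
      ring
    have e8 : 0 ≤ θ ^ 2 := by positivity
    rw [e7]
    linarith
  have h10 : θ * t ≤ θ * (θ - 51 / 100) := by
    have : θ * (θ - 51 / 100) = θ ^ 2 - 51 / 100 * θ := by ring
    rw [this]
    linarith
  exact le_of_mul_le_mul_left h10 hθ0

end Pool.Agent.B5.H78
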