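import Pool.Agent.Lib.MP_b5021c_nt.IfaceE4

/-!
# MP_b5021c_nt, stage 3, ALL THETA, section 1: the choice of the ray with a list of loads

For every ray a family of loads `lo S i` is given (a finite list, or all units).  There is a ray `S` such that either all loads of
the list are drop free, or exactly one load of `S` has a drop and `S` has mutual partners (with
loads of their lists).
-/

namespace Pool.Agent.B5

open scoped LaurentPolynomial

/-- The load `e` of the ray `S` has the drop `g`. -/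
def Dgr {O : Type} [CommRing O] {P L : Type} [AddCommGroup L] (phi : L →+ (P → ℤ)) (D : AO O L)
    (S : L) (e : (RO O)ˣ) (g : ℕ) : Prop :=
  Module.finrank ℤ (US e S D) + g = Module.finrank ℤ L ∧
  ∀ (i0 : P) (h : co phi i0 S = 1),
    Module.finrank ℤ L = rk (supp (cl (co phi i0) S h e D)) + 1 + g

/-- (SEL) THE CHOICE OF THE RAY, list form. [uses Sl4S LMNS RkUSS] -/
def SllS : Prop := ∀ (O : Type) [CommRing O] [IsDomain O] [IsPrincipalIdealRing O] [Coef O]
  (P L : Type) [Fintype P] [DecidableEq P] [AddCommGroup L] [Module.Free ℤ L]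
  [Module.Finite ℤ L] (phi : L →+ (P → ℤ)) (D : AO O L) (ι : Type) [Nonempty ι] (lo : L → ι → (RO O)ˣ),
    DD phi D → 2 ≤ Module.finrank ℤ L →
    (∀ S, Ray D S → ∀ i, D.coeff 0 + (lo S i : RO O) * D.coeff S ≠ 0) →
      ∃ S : L, Ray D S ∧ ((∀ i, Dgr phi D S (lo S i) 0) ∨
        ∃ (i : ι) (g : ℕ), 1 ≤ g ∧ Dgr phi D S (lo S i) g ∧
          ((g : ℝ) - 1) * M (D.coeff S) ≤ M (D.coeff 0) ∧
          (g ≤ 4 ∨ Real.sqrt 3 ^ (g + 1) ≤ M (D.coeff 0 + (lo S i : RO O) * D.coeff S)) ∧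
          (∀ e : (RO O)ˣ, e ≠ lo S i → Dgr phi D S e 0) ∧
          (∃ (S1 : L) (i1 : ι), Mut D S S1 (lo S i) (lo S1 i1)) ∧
          (2 ≤ g → ∃ (S1 S2 : L) (i1 i2 : ι), Mut D S S1 (lo S i) (lo S1 i1) ∧
            Mut D S S2 (lo S i) (lo S2 i2) ∧
            S2 ∉ satur (US (lo S1 i1) S1 D ⊔ Submodule.span ℤ {S}) ∧
            S1 ∉ satur (US (lo S2 i2) S2 D ⊔ Submodule.span ℤ {S})) ∧
          ∀ T, Ray D T → T ∉ US (lo S i) S D → ∃ j : ι,
            Mut D S T (lo S i) (lo T j) ∧ Dgr phi D T (lo T j) g ∧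
            (∀ e : (RO O)ˣ, e ≠ lo T j → Dgr phi D T e 0) ∧
            ∀ T', Ray D T' → T' ∉ US (lo T j) T D →
              ∃ j' : ι, Mut D T T' (lo T j) (lo T' j'))

namespace H78

section

variable {O : Type} [CommRing O] [IsDomain O] [IsPrincipalIdealRing O] [Coef O] {P L : Type}
  [Fintype P] [DecidableEq P] [AddCommGroup L] [Module.Free ℤ L] [Module.Finite ℤ L]

theorem finrank_top_of_supp {phi : L →+ (P → ℤ)} {D : AO O L} (hD : DD phi D) (U : Submodule ℤ L)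
    (h : ∀ a ∈ supp D, a ∈ U) : Module.finrank ℤ U = Module.finrank ℤ L := by
  have h1 : Submodule.span ℤ (supp D) ≤ U := Submodule.span_le.2 h
  have h2 : rk (supp D) ≤ Module.finrank ℤ U := Submodule.finrank_mono h1
  rw [hD.spn] at h2
  exact le_antisymm (Submodule.finrank_le U) h2

theorem dgr_of (hRk : RkUSS) {phi : L →+ (P → ℤ)} {D : AO O L} (hD : DD phi D) {S : L}
    (hS : Ray D S) {e : (RO O)ˣ} {g : ℕ} (h : Module.finrank ℤ (US e S D) + g = Module.finrank ℤ L) :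
    Dgr phi D S e g := by
  refine ⟨h, fun i0 h0 => ?_⟩
  rw [← h, hRk O P L phi D S i0 h0 e hD.inj hD.bin (hD.bin S hS.1)]

end

theorem sel (sl4 : Sl4S) (lmn : LMNS) (hRk : RkUSS) : SllS := by
  intro O _ _ _ _ P L _ _ _ _ _ phi D ι _ lo hD hrk hne
  have hex : ∀ S, ∃ i, (∃ i', Module.finrank ℤ (US (lo S i') S D) ≠ Module.finrank ℤ L) →
      Module.finrank ℤ (US (lo S i) S D) ≠ Module.finrank ℤ L := by
    intro S
    by_cases h : ∃ i, Module.finrank ℤ (US (lo S i) S D) ≠ Module.finrank ℤ L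
    · obtain ⟨i, hi⟩ := h
      exact ⟨i, fun _ => hi⟩
    · exact ⟨Classical.arbitrary ι, fun h2 => absurd h2 h⟩
  choose ix hix using hex
  obtain ⟨S, g, hS, h1, -, h3, h4, h5, h6, h7, h8⟩ := sl4 O P L phi D (fun S => lo S (ix S)) hD hrk
    (fun S hS => hne S hS _)
  refine ⟨S, hS, ?_⟩
  rcases Nat.eq_zero_or_pos g with hg | hg
  · left
    intro i
    subst hg
    apply dgr_of hRk hD hS
    by_contra hcon
    rw [add_zero] at hcon h1
    exact hix S ⟨i, hcon⟩ h1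
  · right
    -- all other loads of a ray with a mutual partner are drop free
    have hfree : ∀ (T T' : L) (e e' : (RO O)ˣ), Mut D T T' e e' → ∀ e'' : (RO O)ˣ, e'' ≠ e →
        Dgr phi D T e'' 0 := by
      intro T T' e e' hM e'' he
      apply dgr_of hRk hD hM.r0
      rw [add_zero]
      exact finrank_top_of_supp hD _
        (lmn O P L phi D T T' e e' e'' hD.inj hD.bin hM.r0 hM.r1 hM.m0 hM.m1 he)
    refine ⟨ix S, g, hg, dgr_of hRk hD hS h1, h3, h4, ?_, ?_, ?_, ?_⟩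
    · obtain ⟨S1, hM⟩ := h6 hg
      exact hfree S S1 _ _ hM
    · obtain ⟨S1, hM⟩ := h6 hg
      exact ⟨S1, ix S1, hM⟩
    · intro hg2
      obtain ⟨S1, S2, hM1, hM2, h9, h10⟩ := h7 hg2
      exact ⟨S1, S2, ix S1, ix S2, hM1, hM2, h9, h10⟩
    · intro T hT hTU
      obtain ⟨hM, hr, hT'⟩ := h8 T hT hTU
      exact ⟨ix T, hM, dgr_of hRk hD hT hr, hfree T S _ _ ⟨hM.r1, hM.r0, hM.m1, hM.m0⟩,
        fun T' hT'r hT'U => ⟨ix T', hT' T' hT'r hT'U⟩⟩

end H78

end Pool.Agent.B5
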