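import Pool.Agent.Lib.MP_b5021c_nt.H96.Fce2
import Pool.Agent.Lib.MP_b5021c_nt.B.H20.E0Cpl

/-!
# MP_b5021c_nt, stage 3, row MONO: an element of rank `K - 1` of the same class

Take a face of codimension two of `D` (through the exponent `0`), its primitive part `B`, and
complete it.  `B` and `B^#` are coprime by the Hurwitz principle for `D` itself, so the completion
is irreducible.
-/

namespace Pool.Agent.B5

open scoped LaurentPolynomial

/-- (MONO) an element of `DD` of rank `K - 1`, constant coefficient of the same class.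
[uses EvRS A1S M1S SlMulS SharpS ExtS StSpecS FaceS B2cS B3S Coeff0S B4S PrimS C2S C3S RaySpanS RkS
E1S MVS ThinS D3S ComplIrrS ComplS ResWDS ResStS] -/
def MonoS : Prop := ∀ (O : Type) [CommRing O] [IsDomain O] [IsPrincipalIdealRing O] [Coef O]
  (P L : Type) [Fintype P] [DecidableEq P] [AddCommGroup L] [Module.Free ℤ L]
  [Module.Finite ℤ L] (phi : L →+ (P → ℤ)) (D : AO O L), DD phi D →
    3 ≤ Module.finrank ℤ L →
    ((∃ N, ClassV N (D.coeff 0)) ∨ (∃ θ, ClassP θ (D.coeff 0))) →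
      ∃ (P' L' : Type) (_ : Fintype P') (_ : DecidableEq P') (_ : AddCommGroup L')
        (_ : Module.Free ℤ L') (_ : Module.Finite ℤ L') (phi' : L' →+ (P' → ℤ)) (D' : AO O L'),
        DD phi' D' ∧ Module.finrank ℤ L' + 1 = Module.finrank ℤ L ∧
        ClsLe (D.coeff 0) (D'.coeff 0)

namespace H78.Mono

open Pool.Agent.B5.H96

/-- The primitive part of an arbitrary face through `0` which is not everything. -/
theorem face_gen (hEv : EvRS) (hA1 : A1S) (hM1 : M1S) (hSl : SlMulS) (hSh : SharpS) (hExt : ExtS)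
    (hSt : StSpecS) (hFa : FaceS) (hB2 : B2cS) (hB3 : B3S) (hC0 : Coeff0S) (hB4 : B4S)
    (hPr : PrimS) (hC2 : C2S) (hC3 : C3S) (hRay : RaySpanS) (hRk : RkS) (hMV : MVS) (hE1 : E1S)
    (hThin : ThinS) (O : Type) [CommRing O] [IsDomain O] [IsPrincipalIdealRing O] [Coef O]
    (P L : Type) [Fintype P] [DecidableEq P] [AddCommGroup L] [Module.Free ℤ L]
    [Module.Finite ℤ L] (phi : L →+ (P → ℤ)) (I J : Finset P) (G : AO O L) (lam : L →+ ℤ)
    (hW : WD phi I J G) (hn : Nn lam G) (hnot : ¬ ∀ a ∈ supp G, lam a = 0)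
    (hrk1 : 1 ≤ rk {a | a ∈ supp G ∧ lam a = 0}) :
      ∃ (c : RO O) (B : AO O (Ker lam)), c ≠ 0 ∧ res (Ker lam) G = cst c * B ∧ Prim B ∧ Stable B ∧
        (∀ h : AO O (Ker lam), Irreducible h → h ∣ B → h ∣ sharp B → False) ∧
        (∀ a ∈ supp B, WW phi I J (a : L)) ∧ rk (supp B) = rk {a | a ∈ supp G ∧ lam a = 0} ∧
        ClsLe (G.coeff 0) (B.coeff 0) := by
  classical
  have h0 : G.coeff 0 ≠ 0 := hW.st.1
  have hres0 : (res (Ker lam) G).coeff 0 = G.coeff 0 := res_coeff (Ker lam) G 0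
  have hresne : res (Ker lam) G ≠ 0 := by
    intro h
    apply h0
    rw [← hres0, h]
    rfl
  obtain ⟨c, B, hc, hcB, hP⟩ := (hPr O (Ker lam) (res (Ker lam) G) 1).2.2 hresne
  have hst := (hFa O L G lam hW.st hn).2
  have hB : Stable B := by
    obtain ⟨b, hb1, hb2, -⟩ := hB4 O (Ker lam) _ (cst c) B hst hcB
    have hb : b = 0 := by
      by_contra hb
      apply hb1.1
      rw [← single_eq, AddMonoidAlgebra.coeff_single, Finsupp.single_eq_of_ne (Ne.symm hb)]
    rw [hb, neg_zero, mon_zero, one_mul] at hb2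
    exact hb2
  have hcoef : ∀ a : Ker lam, G.coeff (a : L) = c * B.coeff a := by
    intro a
    have h1 := congrArg (fun F => F.coeff a) hcB
    simpa only [res_coeff, cst_mul_coeff] using h1
  have hsupp : ∀ a : Ker lam, a ∈ supp B ↔ (a : L) ∈ supp G := by
    intro a
    change B.coeff a ≠ 0 ↔ G.coeff (a : L) ≠ 0
    rw [hcoef a]
    simp [hc]
  have himg : incl (Ker lam) '' supp B = {a | a ∈ supp G ∧ lam a = 0} := by
    ext a
    constructor
    · rintro ⟨b, hb, rfl⟩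
      exact ⟨(hsupp b).mp hb, mem_Ker.mp b.2⟩
    · rintro ⟨h1, h2⟩
      exact ⟨⟨a, mem_Ker.mpr h2⟩, (hsupp _).mpr h1, rfl⟩
  have hrkB : rk (supp B) = rk {a | a ∈ supp G ∧ lam a = 0} := by
    rw [← (hRk (Ker lam) L).2.2.2.1 (incl (Ker lam)) (supp B) (incl_inj _), himg]
  have hww : ∀ a ∈ supp B, WW phi I J (a : L) := fun a ha => hW.ww _ ((hsupp a).mp ha)
  refine ⟨c, B, hc, hcB, hP, hB, ?_, hww, hrkB, ?_, ?_⟩
  · intro h hi hd hd2
    exact coprime_sharp hC2 hC3 hB4 hPr hSh hSt hC0 hSl hExt hW.irr hW.st hn hnot hB hP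
      ⟨cst c, by rw [hcB, mul_comm]⟩ h hi hd hd2
  · intro N hN
    have h1 : G.coeff 0 = c * B.coeff 0 := hcoef 0
    rw [h1] at hN
    obtain ⟨N1, N2, h2, h3, h4⟩ := (hE1 O).1 N _ _ hN
    refine ⟨N2, ?_, h3⟩
    have h5 := h2.1
    have h6 := h3.1
    rw [h4]
    nlinarith
  · intro θ hθ
    have h1 : G.coeff 0 = c * B.coeff 0 := hcoef 0
    rw [h1] at hθ
    rcases (hE1 O).2 θ _ _ hθ with h2 | h2
    · exfalso
      have h3 : M (B.coeff 0) = 1 := ((hMV O).1 1 _ h2.2).2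
      have hu0 : IsUnit (B.coeff 0) :=
        hM1 O _ hB.1 h3 (hB3 O (Ker lam) B hB hP)
      have hthin : Thin (supp B) :=
        hThin P (Ker lam) (phi.comp (incl (Ker lam))) I J (supp B)
          (hW.inj.comp (incl_inj _)) hww
      have hwdep : Wdep B := by
        by_contra hw
        have h4 : ∀ a ∈ supp B, a = 0 := by
          intro a ha
          by_contra h5
          exact hw ⟨a, ha, 0, hB.1, h5⟩
        have h6 : rk (supp B) = 0 := by
          unfold rk
          have h7 : Submodule.span ℤ (supp B) = ⊥ := by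
            rw [Submodule.span_eq_bot]
            exact h4
          rw [h7, finrank_bot]
        omega
      obtain ⟨mu, hmu⟩ := hB.2
      obtain ⟨b, hb⟩ := (hRay O (Ker lam) B ⟨mu, hmu.1⟩ hthin).2.2 hwdep
      have hub : IsUnit (B.coeff b) := by
        refine hA1 O _ hb.1 fun z => ?_
        have h8 := (hB2 O (Ker lam) B hB).2 b hb z
        rwa [(hEv O).2.1 z _ hu0] at h8
      exact edge_contra hC3 hExt hEv hW.irr hW.st hn hnot hB hcB hb hu0 hub
    · exact h2.2

/-- A face of codimension two. -/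
theorem face2 (hD3 : D3S) (hExt : ExtS) (hRk : RkS) {L : Type} [AddCommGroup L] [Module.Free ℤ L]
    [Module.Finite ℤ L] (T : Set L) (hfin : T.Finite) (hpos : ∃ mu : L →+ ℤ, ∀ a ∈ T, a ≠ 0 → 0 < mu a)
    (hT : rk T = Module.finrank ℤ L) (h3 : 3 ≤ Module.finrank ℤ L) :
    ∃ lam : L →+ ℤ, (∀ a ∈ T, 0 ≤ lam a) ∧
      rk {a | a ∈ T ∧ lam a = 0} + 2 = Module.finrank ℤ L := by
  classical
  obtain ⟨mu, hmu⟩ := hpos
  have hrk0 : ∀ {L' : Type} [AddCommGroup L'] [Module.Free ℤ L'] [Module.Finite ℤ L'] (A : Set L'),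
      rk (A \ {0}) = rk A := by
    intro L' _ _ _ A
    refine le_antisymm ((hRk L' L').2.1 _ _ Set.diff_subset) ?_
    refine (hRk L' L').2.2.2.2.2.2.2.2.1 _ _ fun a ha => ?_
    by_cases h : a = 0
    · refine ⟨1, one_ne_zero, ?_⟩
      rw [h, smul_zero]
      exact Submodule.zero_mem _
    · exact ⟨1, one_ne_zero, by rw [one_smul]; exact Submodule.subset_span ⟨ha, h⟩⟩
  have hne : ∀ {L' : Type} [AddCommGroup L'] [Module.Free ℤ L'] [Module.Finite ℤ L'],
      1 ≤ Module.finrank ℤ L' → ∃ e : L', e ≠ 0 := by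
    intro L' _ _ _ h
    have h1 : 0 < Module.finrank ℤ L' := h
    have h2 := Module.nontrivial_of_finrank_pos (R := ℤ) (M := L') h1
    exact exists_ne 0
  -- the first facet
  set S : Finset L := (hfin.toFinset).erase 0 with hS
  have hSc : (S : Set L) = T \ {0} := by
    ext a
    simp [hS, and_comm]
  obtain ⟨e, he⟩ := hne (L' := L) (by omega)
  obtain ⟨l1, hl1, -, hr1⟩ := hD3 L S e ⟨mu, fun a ha => by
    have h1 : a ∈ T \ {0} := by rw [← hSc]; exact ha
    exact hmu a h1.1 h1.2⟩ (by rw [hSc, hrk0, hT]) he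
  have hl1n : ∀ a ∈ T, 0 ≤ l1 a := by
    intro a ha
    by_cases h : a = 0
    · rw [h, map_zero]
    · exact hl1 a (by
        have h1 : a ∈ (S : Set L) := by rw [hSc]; exact ⟨ha, h⟩
        exact h1)
  have hl1ne : l1 ≠ 0 := by
    intro h
    have h1 : {a | a ∈ S ∧ l1 a = 0} = (S : Set L) := by
      ext a
      simp [h]
    rw [h1, hSc, hrk0, hT] at hr1
    omega
  have hk1 : Module.finrank ℤ (Ker l1) + 1 = Module.finrank ℤ L := (hRk L L).1 l1 hl1ne
  -- the second facet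
  set T1 : Set (Ker l1) := {a | (a : L) ∈ T} with hT1
  have hT1fin : T1.Finite := hfin.preimage (Subtype.coe_injective.injOn)
  have himg1 : incl (Ker l1) '' (T1 \ {0}) = {a | a ∈ S ∧ l1 a = 0} := by
    ext a
    constructor
    · rintro ⟨b, ⟨hb, hb0⟩, rfl⟩
      refine ⟨?_, mem_Ker.mp b.2⟩
      have h1 : (b : L) ∈ (S : Set L) := by
        rw [hSc]
        exact ⟨hb, fun h => hb0 (Subtype.ext h)⟩
      exact h1
    · rintro ⟨h1, h2⟩
      have h3 : a ∈ T \ {0} := by rw [← hSc]; exact h1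
      exact ⟨⟨a, mem_Ker.mpr h2⟩, ⟨h3.1, fun h => h3.2 (congrArg Subtype.val h)⟩, rfl⟩
  have hrT1 : rk T1 = Module.finrank ℤ (Ker l1) := by
    have h1 := (hRk (Ker l1) L).2.2.2.1 (incl (Ker l1)) (T1 \ {0}) (incl_inj _)
    rw [himg1] at h1
    rw [← hrk0, ← h1]
    omega
  set S1 : Finset (Ker l1) := (hT1fin.toFinset).erase 0 with hS1
  have hS1c : (S1 : Set (Ker l1)) = T1 \ {0} := by
    ext a
    simp [hS1, and_comm]
  obtain ⟨e1, he1⟩ := hne (L' := Ker l1) (by omega)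
  obtain ⟨l2, hl2, -, hr2⟩ := hD3 (Ker l1) S1 e1 ⟨mu.comp (incl (Ker l1)), fun a ha => by
    have h1 : a ∈ T1 \ {0} := by rw [← hS1c]; exact ha
    exact hmu (a : L) h1.1 (fun h => h1.2 (Subtype.ext h))⟩ (by rw [hS1c, hrk0, hrT1]) he1
  obtain ⟨l2', hl2'⟩ := (hExt L (Ker l1) (sat_Ker l1)).2 l2
  set N : ℤ := 1 + ∑ a ∈ hfin.toFinset, |l2' a| with hN
  have hN0 : 0 ≤ N := by
    have : 0 ≤ ∑ a ∈ hfin.toFinset, |l2' a| := Finset.sum_nonneg fun i _ => abs_nonneg _
    omega
  set lam : L →+ ℤ := N • l1 + l2' with hlam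
  have hlama : ∀ a, lam a = N * l1 a + l2' a := fun a => by simp [hlam]
  have hposl : ∀ a ∈ T, l1 a ≠ 0 → 0 < lam a := by
    intro a ha h0
    have h1 : 1 ≤ l1 a := by
      have := hl1n a ha
      omega
    have h2 : |l2' a| ≤ ∑ a ∈ hfin.toFinset, |l2' a| :=
      Finset.single_le_sum (f := fun a => |l2' a|) (fun i _ => abs_nonneg _)
        (hfin.mem_toFinset.mpr ha)
    have h3 := neg_abs_le (l2' a)
    have h4 : N ≤ N * l1 a := by nlinarith
    rw [hlama]
    linarith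
  have hker : ∀ a : Ker l1, lam (a : L) = l2 a := by
    intro a
    rw [hlama, hl2', mem_Ker.mp a.2, mul_zero, zero_add]
  refine ⟨lam, ?_, ?_⟩
  · intro a ha
    by_cases h0 : l1 a = 0
    · have h1 := hker ⟨a, mem_Ker.mpr h0⟩
      change lam a = _ at h1
      rw [h1]
      by_cases h2 : (⟨a, mem_Ker.mpr h0⟩ : Ker l1) = 0
      · rw [h2, map_zero]
      · exact hl2 _ (by
          have h3 : (⟨a, mem_Ker.mpr h0⟩ : Ker l1) ∈ (S1 : Set (Ker l1)) := by
            rw [hS1c]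
            exact ⟨ha, h2⟩
          exact h3)
    · exact (hposl a ha h0).le
  · have himg2 : incl (Ker l1) '' {a | a ∈ S1 ∧ l2 a = 0} = {a | a ∈ T ∧ lam a = 0} \ {0} := by
      ext a
      constructor
      · rintro ⟨b, ⟨hb, hb0⟩, rfl⟩
        have h1 : b ∈ T1 \ {0} := by rw [← hS1c]; exact hb
        refine ⟨⟨h1.1, ?_⟩, fun h => h1.2 (Subtype.ext h)⟩
        rw [← hb0]
        exact hker b
      · rintro ⟨⟨h1, h2⟩, h3⟩
        have h4 : l1 a = 0 := by
          by_contra h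
          exact absurd h2 (hposl a h1 h).ne'
        refine ⟨⟨a, mem_Ker.mpr h4⟩, ⟨?_, ?_⟩, rfl⟩
        · have h5 : (⟨a, mem_Ker.mpr h4⟩ : Ker l1) ∈ (S1 : Set (Ker l1)) := by
            rw [hS1c]
            exact ⟨h1, fun h => h3 (congrArg Subtype.val h)⟩
          exact h5
        · rw [← hker]
          exact h2
    have h1 := (hRk (Ker l1) L).2.2.2.1 (incl (Ker l1)) {a | a ∈ S1 ∧ l2 a = 0} (incl_inj _)
    rw [himg2, hrk0] at h1
    omega

theorem mono (hEv : EvRS) (hA1 : A1S) (hM1 : M1S) (hSl : SlMulS) (hSh : SharpS) (hExt : ExtS)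
    (hSt : StSpecS) (hFa : FaceS) (hB2 : B2cS) (hB3 : B3S) (hC0 : Coeff0S) (hB4 : B4S)
    (hPr : PrimS) (hC2 : C2S) (hC3 : C3S) (hRay : RaySpanS) (hRk : RkS) (hMV : MVS) (hE1 : E1S)
    (hThin : ThinS) (hD3 : D3S) (hCI : ComplIrrS) (hCo : ComplS) (hRW : ResWDS) (hRS : ResStS) :
    MonoS := by
  classical
  intro O _ _ _ _ P L _ _ _ _ _ phi D hD h3 hcls
  have hWD : WD phi ∅ Finset.univ D := by
    refine ⟨hD.inj, Finset.disjoint_empty_left _, fun a ha => ⟨fun j _ => hD.bin a ha j, ?_, ?_⟩,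
      hD.st, hD.un, hD.irr, hD.spn⟩
    · left; intro i hi; exact absurd hi (Finset.notMem_empty i)
    · intro j _ hj; exact absurd (Finset.mem_univ j) hj
  have hfin : (supp D).Finite := by
    refine (D.coeff.support.finite_toSet).subset fun x hx => ?_
    exact Finsupp.mem_support_iff.mpr hx
  obtain ⟨mu, hmu⟩ := hD.st.2
  obtain ⟨lam, hl1, hl2⟩ := face2 hD3 hExt hRk (supp D) hfin
    ⟨mu, fun a ha h0 => hmu.1 a (Finsupp.mem_support_iff.mpr ha) h0⟩ hD.spn h3
  have hNn : Nn lam D := fun a ha => hl1 a (Finsupp.mem_support_iff.mp ha)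
  have hnot : ¬ ∀ a ∈ supp D, lam a = 0 := by
    intro h
    have h1 : {a | a ∈ supp D ∧ lam a = 0} = supp D := by
      ext a
      exact ⟨fun h2 => h2.1, fun h2 => ⟨h2, h a h2⟩⟩
    rw [h1, hD.spn] at hl2
    omega
  have hlne : lam ≠ 0 := by
    rintro rfl
    exact hnot fun a _ => rfl
  obtain ⟨c, B, hc, hcB, hBp, hBs, hcop, hBw, hBr, hBc⟩ :=
    face_gen hEv hA1 hM1 hSl hSh hExt hSt hFa hB2 hB3 hC0 hB4 hPr hC2 hC3 hRay hRk hMV hE1 hThin
      O P L phi ∅ Finset.univ D lam hWD hNn hnot (by omega)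
  obtain ⟨c1, c2, c3, c4, c5⟩ := hCo O (Ker lam) B hBs
  have hB0 : B ≠ 0 := by
    rintro rfl
    exact hBs.1 rfl
  have hirr := hCI O (Ker lam) B hB0 hcop
  have hCne : compl B ≠ 0 := hirr.ne_zero
  obtain ⟨K', hSat, hmem, hfr, hI, hU, hr⟩ := hRW O (Ker lam × ℤ) (compl B) hCne
  have hsB : ∀ x : Ker lam, x ∈ supp B ↔ (x : L) ∈ supp D := by
    intro x
    have h6 : D.coeff (x : L) = c * B.coeff x := by
      have h7 := congrArg (fun G : AO O (Ker lam) => G.coeff x) hcB
      simp only [res_coeff] at h7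
      rw [h7, cst, AddMonoidAlgebra.coeff_single_zero_mul]
    change B.coeff x ≠ 0 ↔ D.coeff (x : L) ≠ 0
    rw [h6]
    exact ⟨fun h => mul_ne_zero hc h, fun h => right_ne_zero_of_mul h⟩
  have hinj : Function.Injective (H20.phC phi lam) := by
    rw [injective_iff_map_eq_zero]
    rintro ⟨a, k⟩ hx
    have hk : k = 0 := congrFun hx none
    subst hk
    have ha : (a : L) = 0 := by
      apply hD.inj
      rw [map_zero]
      funext j
      have h6 : phi (a : L) j + 0 = 0 := congrFun hx (some j)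
      rw [add_zero] at h6
      exact h6
    have ha' : a = 0 := Subtype.ext ha
    rw [ha']; rfl
  have hbin : ∀ x ∈ supp (compl B), Bin (H20.phC phi lam) x := by
    intro x hx o
    rcases o with _ | j
    · change x.2 = 0 ∨ x.2 = 1
      rcases c4 x hx with h | h
      · exact Or.inl h.1
      · exact Or.inr h.1
    · change phi (x.1 : L) j + x.2 = 0 ∨ phi (x.1 : L) j + x.2 = 1
      rcases c4 x hx with h | h
      · rw [h.1, add_zero]
        exact hD.bin _ ((hsB _).mp h.2) j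
      · rw [h.1]
        have h6 := hD.bin _ ((hsB _).mp h.2) j
        have e1 : phi ((-x.1 : Ker lam) : L) j = -phi (x.1 : L) j := by
          rw [Submodule.coe_neg, map_neg, Pi.neg_apply]
        rw [e1] at h6
        omega
  have hsK : ∀ x ∈ supp (res K' (compl B)), (x : Ker lam × ℤ) ∈ supp (compl B) := by
    intro x hx
    change (compl B).coeff (x : Ker lam × ℤ) ≠ 0
    rw [← res_coeff]
    exact hx
  have h00 : (res K' (compl B)).coeff 0 = B.coeff 0 := by
    rw [← c3]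
    exact res_coeff K' (compl B) 0
  refine ⟨Option P, K', inferInstance, inferInstance, inferInstance, inferInstance, inferInstance,
    (H20.phC phi lam).comp (incl K'), res K' (compl B),
    ⟨hinj.comp (incl_inj K'), fun a ha i => hbin _ (hsK a ha) i,
      (hRS O (Ker lam × ℤ) (compl B) K' hSat hmem).1 c1, hU c2, hI hirr, by rw [hr, hfr]⟩, ?_, ?_⟩
  · rw [hfr, c5, hBr]
    omega
  · rw [h00]
    exact hBc

/-- Down to every rank `r`, `2 ≤ r`. -/
theorem mono_to (hM : MonoS) (O : Type) [CommRing O] [IsDomain O] [IsPrincipalIdealRing O]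
    [Coef O] (θ : ℝ) (r : ℕ) (hr : 2 ≤ r) : ∀ (n : ℕ) (P L : Type) [Fintype P] [DecidableEq P]
    [AddCommGroup L] [Module.Free ℤ L] [Module.Finite ℤ L] (phi : L →+ (P → ℤ)) (D : AO O L),
    DD phi D → ClassP θ (D.coeff 0) → Module.finrank ℤ L = r + n →
      ∃ (P' L' : Type) (_ : Fintype P') (_ : DecidableEq P') (_ : AddCommGroup L')
        (_ : Module.Free ℤ L') (_ : Module.Finite ℤ L') (phi' : L' →+ (P' → ℤ)) (D' : AO O L'),
        DD phi' D' ∧ Module.finrank ℤ L' = r ∧ ClassP θ (D'.coeff 0) := by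
  intro n
  induction n with
  | zero =>
    intro P L _ _ _ _ _ phi D hD hθ hf
    exact ⟨P, L, inferInstance, inferInstance, inferInstance, inferInstance, inferInstance, phi, D,
      hD, hf, hθ⟩
  | succ n ih =>
    intro P L _ _ _ _ _ phi D hD hθ hf
    obtain ⟨P', L', i1, i2, i3, i4, i5, phi', D', hD', hf', hc'⟩ :=
      hM O P L phi D hD (by omega) (Or.inr ⟨θ, hθ⟩)
    exact ih P' L' phi' D' hD' (hc'.2 θ hθ) (by omega)

end H78.Mono

end Pool.Agent.B5
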