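import Pool.Agent.Lib.MP_b5021c_nt.IfaceEF
import Pool.Agent.Lib.MP_b5021c_nt.B.H36.Evr
import Pool.Agent.Lib.MP_b5021c_nt.B.H59.Cst

/-!
# MP_b5021c_nt, chapter EF, row EF_WPS: the parts of given weight
-/

namespace Pool.Agent.B5.H78

open scoped LaurentPolynomial
open Polynomial Pool.Agent.B5

section

variable {O : Type} [CommRing O] [Coef O] {L : Type} [AddCommGroup L]

/-- The value of a slice as a double sum. -/
theorem slsum (z : Circle) (u : AddChar L Circle) (lam : L →+ ℤ) (s : ℂ) (G : AO O L)
    (A : Finset L) (B : Finset ℤ) (hA : ∀ a, G.coeff a ≠ 0 → a ∈ A)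
    (hB : ∀ a k, (G.coeff a).coeff k ≠ 0 → k ∈ B) :
    (sl u lam (spec z G)).eval s = ∑ a ∈ A, ∑ k ∈ B,
      Coef.emb ((G.coeff a).coeff k) * (z : ℂ) ^ k * (u a : ℂ) * s ^ (lam a).toNat := by
  rw [H59.sl_eval, H59.spec_sum z G (fun a c => c * (u a : ℂ) * s ^ (lam a).toNat)
    (by intro a; simp)]
  rw [Finsupp.sum_of_support_subset (s := A)]
  · refine Finset.sum_congr rfl fun a _ => ?_
    rw [H36.evR_eq, Finsupp.sum_of_support_subset (s := B)]
    · rw [Finset.sum_mul, Finset.sum_mul]
    · intro k hk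
      exact hB a k (Finsupp.mem_support_iff.mp hk)
    · intro k _
      simp
  · intro a ha
    exact hA a (Finsupp.mem_support_iff.mp ha)
  · intro a _
    simp

theorem wp_ne {q : ℕ} {l : L →+ ℤ} {j : ℤ} {D : AO O L} {a : L} {k : ℤ}
    (h : ((wp q l j D).coeff a).coeff k ≠ 0) :
    (q : ℤ) * k - l a = j ∧ (D.coeff a).coeff k ≠ 0 := by
  rw [wp_coeff] at h
  by_cases hj : (q : ℤ) * k - l a = j
  · rw [if_pos hj] at h
    exact ⟨hj, h⟩
  · rw [if_neg hj] at h
    exact absurd rfl h

theorem wp_coeff_ne {q : ℕ} {l : L →+ ℤ} {j : ℤ} {D : AO O L} {a : L}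
    (h : (wp q l j D).coeff a ≠ 0) : D.coeff a ≠ 0 := by
  intro h0
  apply h
  apply AddMonoidAlgebra.ext
  apply Finsupp.ext
  intro k
  rw [wp_coeff, h0]
  simp

/-- The character `u t^(-l)`. -/
noncomputable def twm (u : AddChar L Circle) (l : L →+ ℤ) (t : Circle) : AddChar L Circle :=
  twist u (-l) t

theorem twm_apply (u : AddChar L Circle) (l : L →+ ℤ) (t : Circle) (a : L) :
    ((twm u l t a : Circle) : ℂ) = (u a : ℂ) * (t : ℂ) ^ (-(l a)) := by
  have h : twm u l t a = u a * t ^ (-(l a)) := rfl
  rw [h, Circle.coe_mul, Circle.coe_zpow]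

theorem zq_coe (z t : Circle) (q : ℕ) : ((z * t ^ q : Circle) : ℂ) = (z : ℂ) * (t : ℂ) ^ q := by
  rw [Circle.coe_mul, Circle.coe_pow]

theorem toLaurent_coeff (p : Polynomial O) (k : ℤ) :
    (Polynomial.toLaurent p).coeff k = if 0 ≤ k then p.coeff k.toNat else 0 := by
  induction p using Polynomial.induction_on' with
  | add f g hf hg =>
    rw [map_add, AddMonoidAlgebra.coeff_add, Finsupp.add_apply, hf, hg]
    split_ifs
    · rw [Polynomial.coeff_add]
    · rw [add_zero]
  | monomial n c =>
    rw [← Polynomial.C_mul_X_pow_eq_monomial, Polynomial.toLaurent_C_mul_X_pow,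
      ← LaurentPolynomial.single_eq_C_mul_T, AddMonoidAlgebra.coeff_single,
      Finsupp.single_apply, Polynomial.coeff_C_mul, Polynomial.coeff_X_pow]
    by_cases h : (n : ℤ) = k
    · subst h
      simp
    · rw [if_neg h]
      by_cases h2 : 0 ≤ k
      · rw [if_pos h2, if_neg, mul_zero]
        intro h3
        apply h
        rw [← h3]
        exact Int.toNat_of_nonneg h2
      · rw [if_neg h2]

end

theorem ef_wps : WpsS := by
  intro O _ _ _ _ L _ _ _ D q0 q l h
  classical
  set A : Finset L := D.coeff.support with hA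
  set B : Finset ℤ := A.biUnion fun a => (D.coeff a).coeff.support with hB
  have hAm : ∀ a, D.coeff a ≠ 0 → a ∈ A := fun a ha => Finsupp.mem_support_iff.mpr ha
  have hc0 : ∀ a k, (D.coeff a).coeff k ≠ 0 → D.coeff a ≠ 0 := by
    intro a k hk h0
    rw [h0] at hk
    exact hk rfl
  have hBm : ∀ a k, (D.coeff a).coeff k ≠ 0 → k ∈ B := by
    intro a k hk
    rw [hB, Finset.mem_biUnion]
    exact ⟨a, hAm a (hc0 a k hk), Finsupp.mem_support_iff.mpr hk⟩
  set m : ℕ := 1 + ∑ a ∈ A, ∑ k ∈ B, ((q : ℤ) * k - l a).toNat with hm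
  -- weights are between `0` and `m`
  have hw0 : ∀ a k, (D.coeff a).coeff k ≠ 0 → 0 ≤ (q : ℤ) * k - l a := by
    intro a k hk
    have := h.nn a k hk
    linarith
  have hwm : ∀ a k, (D.coeff a).coeff k ≠ 0 → ((q : ℤ) * k - l a).toNat < m := by
    intro a k hk
    have h1 : ((q : ℤ) * k - l a).toNat ≤ ∑ k ∈ B, ((q : ℤ) * k - l a).toNat :=
      Finset.single_le_sum (f := fun k => ((q : ℤ) * k - l a).toNat) (fun _ _ => Nat.zero_le _)
        (hBm a k hk)
    have h2 : ∑ k ∈ B, ((q : ℤ) * k - l a).toNat ≤ ∑ a ∈ A, ∑ k ∈ B, ((q : ℤ) * k - l a).toNat :=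
      Finset.single_le_sum (f := fun a => ∑ k ∈ B, ((q : ℤ) * k - l a).toNat)
        (fun _ _ => Nat.zero_le _) (hAm a (hc0 a k hk))
    omega
  have hout : ∀ j : ℤ, j < 0 ∨ (m : ℤ) ≤ j → wp q l j D = 0 := by
    intro j hj
    apply AddMonoidAlgebra.ext
    apply Finsupp.ext
    intro a
    apply AddMonoidAlgebra.ext
    apply Finsupp.ext
    intro k
    by_contra hne
    obtain ⟨h1, h2⟩ := wp_ne (q := q) (l := l) (j := j) (D := D) (a := a) (k := k) hne
    have h3 := hw0 a k h2
    have h4 := hwm a k h2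
    omega
  -- the sum over `j` of a function of the parts
  have hsum : ∀ (a : L) (k : ℤ) (F : ℕ → ℂ), ∑ j ∈ Finset.range m,
      F j * Coef.emb (((wp q l (j : ℤ) D).coeff a).coeff k) =
        F ((q : ℤ) * k - l a).toNat * Coef.emb ((D.coeff a).coeff k) := by
    intro a k F
    by_cases hz : (D.coeff a).coeff k = 0
    · rw [hz, map_zero, mul_zero]
      refine Finset.sum_eq_zero fun j _ => ?_
      rw [wp_coeff, hz]
      simp
    · rw [Finset.sum_eq_single ((q : ℤ) * k - l a).toNat]
      · rw [wp_coeff, if_pos (Int.toNat_of_nonneg (hw0 a k hz)).symm]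
      · intro j _ hj
        rw [wp_coeff, if_neg]
        · rw [map_zero, mul_zero]
        · intro hj2
          apply hj
          rw [hj2]
          simp
      · intro hn
        exact absurd (Finset.mem_range.mpr (hwm a k hz)) hn
  refine ⟨m, ?_, hout, ?_⟩
  · apply AddMonoidAlgebra.ext
    apply Finsupp.ext
    intro a
    apply AddMonoidAlgebra.ext
    apply Finsupp.ext
    intro k
    rw [AddMonoidAlgebra.coeff_sum, Finsupp.finsetSum_apply, AddMonoidAlgebra.coeff_sum,
      Finsupp.finsetSum_apply]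
    by_cases hz : (D.coeff a).coeff k = 0
    · rw [hz]
      symm
      refine Finset.sum_eq_zero fun j _ => ?_
      rw [wp_coeff, hz]
      simp
    · rw [Finset.sum_eq_single ((q : ℤ) * k - l a).toNat]
      · rw [wp_coeff, if_pos (Int.toNat_of_nonneg (hw0 a k hz)).symm]
      · intro j _ hj
        rw [wp_coeff, if_neg]
        intro hj2
        apply hj
        rw [hj2]
        simp
      · intro hn
        exact absurd (Finset.mem_range.mpr (hwm a k hz)) hn
  · intro lam hlam z u
    have key : ∀ (s : ℂ) (T : ℂ), ∑ j ∈ Finset.range m,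
        T ^ j * (sl u lam (spec z (wp q l (j : ℤ) D))).eval s =
        ∑ a ∈ A, ∑ k ∈ B, T ^ ((q : ℤ) * k - l a).toNat * Coef.emb ((D.coeff a).coeff k) *
          ((z : ℂ) ^ k * (u a : ℂ) * s ^ (lam a).toNat) := by
      intro s T
      have e1 : ∀ j : ℕ, T ^ j * (sl u lam (spec z (wp q l (j : ℤ) D))).eval s =
          ∑ a ∈ A, ∑ k ∈ B, (T ^ j * Coef.emb (((wp q l (j : ℤ) D).coeff a).coeff k)) *
            ((z : ℂ) ^ k * (u a : ℂ) * s ^ (lam a).toNat) := by
        intro j
        rw [slsum z u lam s (wp q l (j : ℤ) D) A B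
          (fun a ha => hAm a (wp_coeff_ne ha)) (fun a k hk => hBm a k (wp_ne hk).2),
          Finset.mul_sum]
        refine Finset.sum_congr rfl fun a _ => ?_
        rw [Finset.mul_sum]
        refine Finset.sum_congr rfl fun k _ => ?_
        ring
      rw [Finset.sum_congr rfl fun j _ => e1 j, Finset.sum_comm]
      refine Finset.sum_congr rfl fun a _ => ?_
      rw [Finset.sum_comm]
      refine Finset.sum_congr rfl fun k _ => ?_
      rw [← Finset.sum_mul, hsum a k fun j => T ^ j]
    refine ⟨fun t => ⟨z * t ^ q, twm u l t, fun s => ?_⟩, fun t => ?_⟩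
    · rw [key s (t : ℂ), slsum (z * t ^ q) (twm u l t) lam s D A B hAm hBm]
      refine Finset.sum_congr rfl fun a _ => ?_
      refine Finset.sum_congr rfl fun k _ => ?_
      by_cases hz : (D.coeff a).coeff k = 0
      · rw [hz, map_zero]
        ring
      · rw [twm_apply, zq_coe]
        have ht : (t : ℂ) ≠ 0 := Circle.coe_ne_zero t
        have e2 : (t : ℂ) ^ ((q : ℤ) * k - l a).toNat = (t : ℂ) ^ ((q : ℤ) * k) *
            (t : ℂ) ^ (-(l a)) := by
          rw [← zpow_add₀ ht, ← zpow_natCast, Int.toNat_of_nonneg (hw0 a k hz)]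
          congr 1
        rw [e2, mul_zpow, ← zpow_natCast (t : ℂ) q, ← zpow_mul]
        ring
    · rw [key 0 t]
      have h00 : (0 : L) ∈ A := by
        apply hAm
        exact h.st.1
      rw [Finset.sum_eq_single_of_mem (0 : L) h00]
      · have e3 : ∀ k ∈ B, t ^ ((q : ℤ) * k - l 0).toNat * Coef.emb ((D.coeff 0).coeff k) *
            ((z : ℂ) ^ k * (u 0 : ℂ) * 0 ^ (lam 0).toNat) =
            if 0 ≤ k then Coef.emb (q0.coeff k.toNat) * ((z : ℂ) * t ^ q) ^ k.toNat else 0 := by
          intro k _
          rw [h.c0, toLaurent_coeff, map_zero l, map_zero lam, AddChar.map_zero_eq_one]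
          by_cases hk : 0 ≤ k
          · rw [if_pos hk, if_pos hk]
            obtain ⟨n, rfl⟩ := Int.eq_ofNat_of_zero_le hk
            have e4 : ((q : ℤ) * (n : ℤ) - 0).toNat = q * n := by
              rw [sub_zero]
              exact_mod_cast Int.toNat_natCast (q * n)
            rw [e4, Int.toNat_natCast, zpow_natCast, mul_pow, ← pow_mul]
            simp
            ring
          · rw [if_neg hk, if_neg hk, map_zero]
            ring
        rw [Finset.sum_congr rfl e3, Polynomial.eval_eq_sum, Polynomial.sum]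
        -- both sums over the exponents
        have e5 : ∑ k ∈ B, (if 0 ≤ k then Coef.emb (q0.coeff k.toNat) *
            ((z : ℂ) * t ^ q) ^ k.toNat else 0) =
            ∑ k ∈ (q0.map Coef.emb).support.image (fun n : ℕ => (n : ℤ)),
              (if 0 ≤ k then Coef.emb (q0.coeff k.toNat) *
                ((z : ℂ) * t ^ q) ^ k.toNat else 0) := by
          symm
          refine Finset.sum_subset ?_ ?_
          · intro k hk
            obtain ⟨n, hn, rfl⟩ := Finset.mem_image.mp hk
            apply hBm 0 n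
            rw [h.c0, toLaurent_coeff, if_pos (Int.natCast_nonneg n), Int.toNat_natCast]
            intro h0
            rw [Polynomial.mem_support_iff, Polynomial.coeff_map, h0, map_zero] at hn
            exact hn rfl
          · intro k _ hk
            split_ifs with hk0
            · have : Coef.emb (q0.coeff k.toNat) = (0 : ℂ) := by
                by_contra hne
                apply hk
                rw [Finset.mem_image]
                refine ⟨k.toNat, ?_, Int.toNat_of_nonneg hk0⟩
                rw [Polynomial.mem_support_iff, Polynomial.coeff_map]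
                exact hne
              rw [this, zero_mul]
            · rfl
        rw [e5, Finset.sum_image (by intro x _ y _ hxy; simpa using hxy)]
        refine Finset.sum_congr rfl fun n _ => ?_
        rw [if_pos (Int.natCast_nonneg n), Int.toNat_natCast, Polynomial.coeff_map]
      · intro a ha ha0
        refine Finset.sum_eq_zero fun k _ => ?_
        have h1 : 0 < lam a := hlam a ha ha0
        have h2 : (lam a).toNat ≠ 0 := by omega
        rw [zero_pow h2]
        ring

end Pool.Agent.B5.H78
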