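import Pool.Agent.Lib.MP_b5021c_nt.E.H78.Wps
import Pool.Agent.Lib.MP_b5021c_nt.B.H91.A1r

/-!
# MP_b5021c_nt, chapter EF, row EF_WST: the part of weight zero is stable and dominates
-/

namespace Pool.Agent.B5.H78

open scoped LaurentPolynomial Topology
open Polynomial Pool.Agent.B5

/-- Value of the two-parameter polynomial. -/
theorem feval (m : ℕ) (p : ℕ → Polynomial ℂ) (s t : ℂ) :
    (((∑ j ∈ Finset.range m, Polynomial.C (p j) * X ^ j : Polynomial (Polynomial ℂ))).eval
      (Polynomial.C t)).eval s = ∑ j ∈ Finset.range m, t ^ j * (p j).eval s := by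
  rw [Polynomial.eval_finsetSum, Polynomial.eval_finsetSum]
  refine Finset.sum_congr rfl fun j _ => ?_
  rw [Polynomial.eval_mul, Polynomial.eval_C, Polynomial.eval_pow, Polynomial.eval_X,
    Polynomial.eval_mul, ← Polynomial.C_pow, Polynomial.eval_C, mul_comm]

theorem exC (t : ℂ) (ht : ‖t‖ = 1) : ∃ t' : Circle, (t' : ℂ) = t :=
  ⟨⟨t, mem_sphere_zero_iff_norm.2 ht⟩, rfl⟩

theorem sl_eval_one' {L : Type} [AddCommGroup L] (u : AddChar L Circle) (lam : L →+ ℤ)
    (p : CA L) : (sl u lam p).eval 1 = evC u p := by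
  rw [H59.sl_eval, evC_apply]
  refine Finsupp.sum_congr fun a _ => ?_
  rw [one_pow, mul_one]

theorem ef_wst (hWps : WpsS) (hHur : HurS) (hA3 : A3aS) (hB3 : B3S) : WstS := by
  intro O _ _ _ _ L _ _ _ D q0 q l h
  classical
  obtain ⟨m, hsum, hout, hev⟩ := hWps O L D q0 q l h
  obtain ⟨h0, lam, hlam, hstab⟩ := h.st
  have hne : ∀ z : Circle, evR z (D.coeff 0) ≠ 0 := hB3 O L D h.st h.prim
  have hq0 : q0.coeff 0 ≠ 0 := by
    intro hz
    apply h.zf 0 (by simp)
    rw [← Polynomial.coeff_zero_eq_eval_zero, Polynomial.coeff_map, hz, map_zero]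
  have hD0 : (D.coeff 0).coeff 0 ≠ 0 := by
    rw [h.c0, toLaurent_coeff, if_pos le_rfl]
    simpa using hq0
  have hm : 0 < m := by
    rcases Nat.eq_zero_or_pos m with hm | hm
    · rw [hm, Finset.range_zero, Finset.sum_empty] at hsum
      exact absurd (by rw [hsum]; rfl) h0
    · exact hm
  -- zero-free
  have zf : ∀ (z : Circle) (u : AddChar L Circle) (s t : ℂ), ‖s‖ < 1 → ‖t‖ ≤ 1 →
      ∑ j ∈ Finset.range m, t ^ j * (sl u lam (spec z (wp q l (j : ℤ) D))).eval s ≠ 0 := by
    intro z u
    obtain ⟨hc, hs0⟩ := hev lam hlam z u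
    have hH := hHur (∑ j ∈ Finset.range m,
      Polynomial.C (sl u lam (spec z (wp q l (j : ℤ) D))) * X ^ j) (by
        intro s t hs ht
        rw [feval m (fun j : ℕ => sl u lam (spec z (wp q l (j : ℤ) D))) s t]
        obtain ⟨t', rfl⟩ := exC t ht
        obtain ⟨z', u', h1⟩ := hc t'
        have h2 := h1 s
        rw [h2]
        exact hstab z' (hne z') u' s hs) (by
        intro t ht
        rw [feval m (fun j : ℕ => sl u lam (spec z (wp q l (j : ℤ) D))) 0 t, hs0 t]
        rcases ht.lt_or_eq with h1 | h1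
        · apply h.zf
          rw [norm_mul, Circle.norm_coe, one_mul, norm_pow]
          exact pow_lt_one₀ (norm_nonneg _) h1 h.qpos.ne'
        · obtain ⟨t', rfl⟩ := exC t h1
          have h2 := hne (z * t' ^ q)
          rw [h.c0, H91.evR_toLaurent, zq_coe] at h2
          exact h2)
    intro s t hs ht
    have h3 := hH s t hs ht
    rw [feval m (fun j : ℕ => sl u lam (spec z (wp q l (j : ℤ) D))) s t] at h3
    exact h3
  have zf0 : ∀ (z : Circle) (u : AddChar L Circle) (s : ℂ), ‖s‖ < 1 →
      (sl u lam (spec z (wp q l 0 D))).eval s ≠ 0 := by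
    intro z u s hs
    have h1 := zf z u s 0 hs (by simp)
    rw [Finset.sum_eq_single_of_mem 0 (Finset.mem_range.mpr hm)] at h1
    · rw [pow_zero, one_mul] at h1
      exact h1
    · intro j _ hj
      rw [zero_pow hj, zero_mul]
  refine ⟨⟨?_, lam, ?_, ?_⟩, ?_⟩
  · intro hz
    apply hD0
    have h1 := wp_coeff q l 0 D 0 0
    rw [hz, map_zero l] at h1
    simpa using h1.symm
  · intro a ha ha0
    exact hlam a (Finsupp.mem_support_iff.mpr (wp_coeff_ne (Finsupp.mem_support_iff.mp ha))) ha0
  · intro z _ u s hs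
    exact zf0 z u s hs
  · intro j
    by_cases hj : j < 0 ∨ (m : ℤ) ≤ j
    · refine ⟨0, fun z u => ?_⟩
      rw [hout j hj, map_zero, norm_zero, zero_mul]
    push Not at hj
    obtain ⟨n, rfl⟩ := Int.eq_ofNat_of_zero_le hj.1
    have hn : n < m := by exact_mod_cast hj.2
    refine ⟨(m.choose n : ℝ), fun z u => ?_⟩
    have key : ∀ s : ℂ, ‖s‖ < 1 → ‖(sl u lam (spec z (wp q l (n : ℤ) D))).eval s‖ ≤
        (m.choose n : ℝ) * ‖(sl u lam (spec z (wp q l 0 D))).eval s‖ := by
      intro s hs
      set p : Polynomial ℂ := ∑ j ∈ Finset.range m,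
        Polynomial.C ((sl u lam (spec z (wp q l (j : ℤ) D))).eval s) * X ^ j with hp
      have hc : ∀ i, i < m → p.coeff i = (sl u lam (spec z (wp q l (i : ℤ) D))).eval s := by
        intro i hi
        rw [hp, Polynomial.finsetSum_coeff, Finset.sum_eq_single_of_mem i
          (Finset.mem_range.mpr hi)]
        · rw [Polynomial.coeff_C_mul, Polynomial.coeff_X_pow, if_pos rfl, mul_one]
        · intro j _ hji
          rw [Polynomial.coeff_C_mul, Polynomial.coeff_X_pow, if_neg (Ne.symm hji), mul_zero]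
      have hdeg : p.natDegree ≤ m := by
        rw [hp]
        refine Polynomial.natDegree_sum_le_of_forall_le _ _ fun j hj => ?_
        exact (Polynomial.natDegree_C_mul_X_pow_le _ _).trans (Finset.mem_range.mp hj).le
      have hzf : ZF p := by
        intro t ht
        have h1 := zf z u s t hs ht.le
        rw [hp, Polynomial.eval_finsetSum]
        intro h2
        apply h1
        rw [← h2]
        refine Finset.sum_congr rfl fun j _ => ?_
        rw [Polynomial.eval_mul, Polynomial.eval_C, Polynomial.eval_pow, Polynomial.eval_X, mul_comm]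
      have h2 := hA3 p m hdeg hzf n
      rw [hc n hn, hc 0 hm] at h2
      exact h2
    have hlim : ∀ P : Polynomial ℂ, Filter.Tendsto (fun r : ℝ => ‖P.eval (r : ℂ)‖) (𝓝[<] 1)
        (𝓝 ‖P.eval 1‖) := by
      intro P
      have hcont : Continuous fun r : ℝ => ‖P.eval (r : ℂ)‖ :=
        (P.continuous.comp Complex.continuous_ofReal).norm
      have h1 := hcont.tendsto 1
      simp only [Complex.ofReal_one] at h1
      exact h1.mono_left nhdsWithin_le_nhds
    have h1 := le_of_tendsto_of_tendsto (hlim (sl u lam (spec z (wp q l (n : ℤ) D))))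
      ((hlim (sl u lam (spec z (wp q l 0 D)))).const_mul (m.choose n : ℝ)) (by
        have hmem : Set.Ioo (0 : ℝ) 1 ∈ 𝓝[<] (1 : ℝ) := Ioo_mem_nhdsLT one_pos
        filter_upwards [hmem] with r hr
        apply key
        rw [Complex.norm_real, Real.norm_eq_abs, abs_of_pos hr.1]
        exact hr.2)
    rw [sl_eval_one', sl_eval_one'] at h1
    exact h1

end Pool.Agent.B5.H78
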